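import Mathlib

/-!
The decomposition law in an abelian extension, in terms of the characters of the Galois group.
-/

set_option autoImplicit false
set_option linter.unusedSectionVars false

namespace Pool.Agent.L7h15.BK

open NumberField IsDedekindDomain

section grp

variable {G : Type} [CommGroup G] [Finite G]

/-- the characters that are trivial on a subgroup -/
theorem card_dual (H : Subgroup G) :
    Nat.card {ψ : G →* ℂˣ // ∀ t ∈ H, ψ t = 1} = Nat.card (G ⧸ H) := by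
  rw [← CommGroup.card_monoidHom_of_hasEnoughRootsOfUnity (G ⧸ H) ℂ]
  refine Nat.card_congr
    { toFun := fun ψ => QuotientGroup.lift H ψ.1 ψ.2
      invFun := fun φ => ⟨φ.comp (QuotientGroup.mk' H), fun t ht => by
        rw [MonoidHom.comp_apply, QuotientGroup.mk'_apply, (QuotientGroup.eq_one_iff t).2 ht,
          map_one]⟩
      left_inv := fun ψ => by
        apply Subtype.ext
        ext t
        rfl
      right_inv := fun φ => by
        apply MonoidHom.ext
        intro x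
        obtain ⟨t, rfl⟩ := QuotientGroup.mk_surjective x
        rfl }

/-- characters trivial on `H` separate the elements outside of `H` -/
theorem exists_char {H : Subgroup G} {t : G} (ht : t ∉ H) :
    ∃ ψ : G →* ℂˣ, (∀ s ∈ H, ψ s = 1) ∧ ψ t ≠ 1 := by
  have h1 : (QuotientGroup.mk t : G ⧸ H) ≠ 1 := fun h => ht ((QuotientGroup.eq_one_iff t).1 h)
  obtain ⟨φ, hφ⟩ := CommGroup.exists_apply_ne_one_of_hasEnoughRootsOfUnity (G ⧸ H) ℂ h1
  refine ⟨φ.comp (QuotientGroup.mk' H), fun s hs => ?_, hφ⟩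
  rw [MonoidHom.comp_apply, QuotientGroup.mk'_apply, (QuotientGroup.eq_one_iff s).2 hs, map_one]

/-- the number of the values of the characters trivial on `H` at `t` -/
theorem card_values (H : Subgroup G) (t : G) {f : ℕ} (hf : 0 < f)
    (h : ∀ m : ℕ, t ^ m ∈ H ↔ f ∣ m) :
    Nat.card {z : ℂ // ∃ ψ : G →* ℂˣ, (∀ s ∈ H, ψ s = 1) ∧ (ψ t : ℂ) = z} = f := by
  classical
  set S : Set ℂ := {z : ℂ | ∃ ψ : G →* ℂˣ, (∀ s ∈ H, ψ s = 1) ∧ (ψ t : ℂ) = z} with hS
  -- the subgroup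
  let D : Subgroup (G →* ℂˣ) :=
    { carrier := {ψ | ∀ s ∈ H, ψ s = 1}
      mul_mem' := fun {a b} ha hb s hs => by rw [MonoidHom.mul_apply, ha s hs, hb s hs, one_mul]
      one_mem' := fun s _ => rfl
      inv_mem' := fun {a} ha s hs => by rw [MonoidHom.inv_apply, ha s hs, inv_one] }
  let e : D →* ℂˣ :=
    { toFun := fun ψ => ψ.1 t
      map_one' := rfl
      map_mul' := fun _ _ => rfl }
  have hfinG : Finite (G →* ℂˣ) := by
    refine Nat.finite_of_card_ne_zero ?_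
    rw [CommGroup.card_monoidHom_of_hasEnoughRootsOfUnity]
    exact Nat.card_pos.ne'
  have hcard : Nat.card S = Nat.card e.range := by
    refine (Nat.card_congr (Equiv.ofBijective (fun z : e.range => (⟨((z : ℂˣ) : ℂ), ?_⟩ : S))
      ⟨?_, ?_⟩)).symm
    · obtain ⟨ψ, hψ⟩ := z.2
      exact ⟨ψ.1, ψ.2, by rw [← hψ]; rfl⟩
    · intro z w hzw
      have h1 : ((z : ℂˣ) : ℂ) = ((w : ℂˣ) : ℂ) := congrArg Subtype.val hzw
      exact Subtype.ext (Units.ext h1)
    · rintro ⟨z, ψ, hψ, rfl⟩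
      exact ⟨⟨ψ t, ⟨⟨ψ, hψ⟩, rfl⟩⟩, rfl⟩
  show Nat.card S = f
  rw [hcard]
  have hfinD : Finite D := Finite.of_injective (fun ψ : D => ψ.1) Subtype.val_injective
  have hfinR : Finite e.range := Set.finite_range e
  apply le_antisymm
  · -- values are `f`-th roots of unity
    have h1 : ∀ z : e.range, (z : ℂˣ) ^ f = 1 := by
      rintro ⟨z, ψ, rfl⟩
      show (ψ.1 t) ^ f = 1
      rw [← map_pow]
      exact ψ.2 _ ((h f).2 dvd_rfl)
    have : NeZero f := ⟨hf.ne'⟩
    have h2 : Nat.card e.range ≤ Nat.card (rootsOfUnity f ℂ) := by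
      refine Nat.card_le_card_of_injective (fun z => (⟨z.1, (mem_rootsOfUnity f z.1).2 (h1 z)⟩ : rootsOfUnity f ℂ)) fun z w hzw => ?_
      have h5 : (z : ℂˣ) = w := congrArg (fun y : rootsOfUnity f ℂ => (y : ℂˣ)) hzw
      exact Subtype.ext h5
    exact h2.trans (card_rootsOfUnity ℂ f)
  · refine Nat.le_of_dvd Nat.card_pos ?_
    rw [← h]
    by_contra hcon
    obtain ⟨ψ, h1, h2⟩ := exists_char hcon
    apply h2
    rw [map_pow]
    have h3 : (⟨ψ t, ⟨⟨ψ, h1⟩, rfl⟩⟩ : e.range) ^ Nat.card e.range = 1 := pow_card_eq_one'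
    exact congrArg Subtype.val h3

/-- `card_dual` for a group in which the elements commute -/
theorem card_dual' {G : Type} [Group G] [Finite G] (hab : ∀ s t : G, s * t = t * s)
    (H : Subgroup G) : Nat.card {ψ : G →* ℂˣ // ∀ t ∈ H, ψ t = 1} = H.index := by
  let _ : CommGroup G := { ‹Group G› with mul_comm := hab }
  exact card_dual H

/-- `card_values` for a group in which the elements commute -/
theorem card_values' {G : Type} [Group G] [Finite G] (hab : ∀ s t : G, s * t = t * s)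
    (H : Subgroup G) (t : G) {f : ℕ} (hf : 0 < f) (h : ∀ m : ℕ, t ^ m ∈ H ↔ f ∣ m) :
    Nat.card {z : ℂ // ∃ ψ : G →* ℂˣ, (∀ s ∈ H, ψ s = 1) ∧ (ψ t : ℂ) = z} = f := by
  let _ : CommGroup G := { ‹Group G› with mul_comm := hab }
  exact card_values H t hf h

end grp

/-- powers of the Frobenius map of a finite field -/
theorem ff_pow {k : Type*} [Field k] [Finite k] {q f : ℕ} (hq : 1 < q)
    (hk : Nat.card k = q ^ f) (m : ℕ) : (∀ y : k, y ^ q ^ m = y) ↔ f ∣ m := by
  classical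
  have : Fintype k := Fintype.ofFinite k
  have hk' : Fintype.card k = q ^ f := by rw [← hk, Nat.card_eq_fintype_card]
  constructor
  · intro h
    obtain ⟨g, hg⟩ := IsCyclic.exists_generator (α := kˣ)
    have h1 : orderOf g = q ^ f - 1 := by
      rw [orderOf_eq_card_of_forall_mem_zpowers hg, Nat.card_eq_fintype_card, Fintype.card_units,
        hk']
    have h2 : g ^ (q ^ m - 1) = 1 := by
      have h3 : g ^ q ^ m = g := Units.ext (by rw [Units.val_pow_eq_pow_val]; exact h g)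
      have h4 : g ^ (q ^ m - 1) * g = 1 * g := by
        rw [← pow_succ, Nat.sub_add_cancel (Nat.one_le_pow _ _ (by omega)), h3, one_mul]
      exact mul_right_cancel h4
    have h3 : q ^ f - 1 ∣ q ^ m - 1 := by
      rw [← h1]
      exact orderOf_dvd_of_pow_eq_one h2
    have h4 := Nat.pow_sub_one_gcd_pow_sub_one q f m
    rw [Nat.gcd_eq_left h3] at h4
    have h5 : q ^ f = q ^ f.gcd m := by
      have e1 := Nat.one_le_pow f q (by omega)
      have e2 := Nat.one_le_pow (f.gcd m) q (by omega)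
      omega
    have h6 := Nat.pow_right_injective hq h5
    rw [h6]
    exact Nat.gcd_dvd_right f m
  · rintro ⟨c, rfl⟩ y
    rw [pow_mul, ← hk']
    exact FiniteField.pow_card_pow c y

section fields

variable {K F : Type} [Field K] [NumberField K] [Field F] [NumberField F] [Algebra K F]

instance lies_above {v : HeightOneSpectrum (𝓞 K)} (u : {u : HeightOneSpectrum (𝓞 F) //
    u.asIdeal.comap (algebraMap (𝓞 K) (𝓞 F)) = v.asIdeal}) : u.1.asIdeal.LiesOver v.asIdeal :=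
  ⟨u.2.symm⟩

/-- the places above `v` as ideals -/
noncomputable def aboveEquiv (v : HeightOneSpectrum (𝓞 K)) :
    {u : HeightOneSpectrum (𝓞 F) // u.asIdeal.comap (algebraMap (𝓞 K) (𝓞 F)) = v.asIdeal} ≃
      (v.asIdeal.primesOver (𝓞 F)) where
  toFun := fun u => ⟨u.1.asIdeal, u.1.isPrime, ⟨u.2.symm⟩⟩
  invFun := fun P => ⟨⟨P.1, P.2.1, by
    have := P.2.2
    have := v.ne_bot
    exact Ideal.ne_bot_of_liesOver_of_ne_bot v.ne_bot P.1⟩, P.2.2.over.symm⟩
  left_inv := fun u => rfl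
  right_inv := fun P => rfl

variable [IsGalois K F]

/-- the residue degree -/
theorem norm_above {v : HeightOneSpectrum (𝓞 K)} {u : HeightOneSpectrum (𝓞 F)}
    (hu : u.asIdeal.comap (algebraMap (𝓞 K) (𝓞 F)) = v.asIdeal) :
    Ideal.absNorm u.asIdeal = Ideal.absNorm v.asIdeal ^ u.asIdeal.inertiaDeg (𝓞 K) ∧
      0 < u.asIdeal.inertiaDeg (𝓞 K) := by
  have : u.asIdeal.LiesOver v.asIdeal := ⟨hu.symm⟩
  have := u.isPrime
  have := v.isPrime
  have := v.isMaximal
  have := u.isMaximal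
  have h1 := Ideal.absNorm_eq_pow_inertiaDeg'_of_liesOver u.asIdeal v.asIdeal v.isPrime v.ne_bot
  have h2 : v.asIdeal.inertiaDeg' u.asIdeal = u.asIdeal.inertiaDeg (𝓞 K) :=
    Ideal.inertiaDeg'_eq_inertiaDeg v.asIdeal u.asIdeal
  rw [← h2]
  exact ⟨h1, Ideal.inertiaDeg'_pos v.asIdeal u.asIdeal⟩

/-- the number of the places above `v` -/
theorem card_above {v : HeightOneSpectrum (𝓞 K)} {u : HeightOneSpectrum (𝓞 F)}
    (hu : u.asIdeal.comap (algebraMap (𝓞 K) (𝓞 F)) = v.asIdeal) :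
    Nat.card {u : HeightOneSpectrum (𝓞 F) //
      u.asIdeal.comap (algebraMap (𝓞 K) (𝓞 F)) = v.asIdeal} *
      Nat.card (u.asIdeal.inertia (F ≃ₐ[K] F)) * u.asIdeal.inertiaDeg (𝓞 K) =
        Nat.card (F ≃ₐ[K] F) := by
  have : u.asIdeal.LiesOver v.asIdeal := ⟨hu.symm⟩
  have := u.isPrime
  have := v.isPrime
  have := v.isMaximal
  rw [Nat.card_congr (aboveEquiv (F := F) v), Nat.card_coe_set_eq]
  exact Ideal.ncard_primesOver_mul_card_inertia_mul_finrank v.asIdeal u.asIdeal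

/-- the Frobenius automorphisms exist -/
theorem exists_frob {v : HeightOneSpectrum (𝓞 K)} {u : HeightOneSpectrum (𝓞 F)}
    (hu : u.asIdeal.comap (algebraMap (𝓞 K) (𝓞 F)) = v.asIdeal) :
    ∃ t : F ≃ₐ[K] F, ∀ x : 𝓞 F, t • x - x ^ Ideal.absNorm v.asIdeal ∈ u.asIdeal := by
  have : Finite (𝓞 F ⧸ u.asIdeal) := Ideal.finiteQuotientOfFreeOfNeBot u.asIdeal u.ne_bot
  have := u.isPrime
  obtain ⟨t, ht⟩ := IsArithFrobAt.exists_of_isInvariant (𝓞 K) (F ≃ₐ[K] F) u.asIdeal
  refine ⟨t, fun x => ?_⟩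
  have h1 := ht x
  have h2 : Nat.card (𝓞 K ⧸ u.asIdeal.under (𝓞 K)) = Ideal.absNorm v.asIdeal := by
    rw [Ideal.under_def, hu, Ideal.absNorm_apply, Submodule.cardQuot_apply]
  rw [h2] at h1
  exact h1

/-- a place above -/
theorem exists_above (v : HeightOneSpectrum (𝓞 K)) : ∃ u : HeightOneSpectrum (𝓞 F),
    u.asIdeal.comap (algebraMap (𝓞 K) (𝓞 F)) = v.asIdeal := by
  have hmax : v.asIdeal.IsMaximal := v.isMaximal
  obtain ⟨Q, hQ, hl⟩ := Ideal.exists_maximal_ideal_liesOver_of_isIntegral (S := 𝓞 F) v.asIdeal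
  exact ⟨⟨Q, hQ.isPrime, Ideal.ne_bot_of_liesOver_of_ne_bot v.ne_bot Q⟩, hl.over.symm⟩

lemma norm_gt (v : HeightOneSpectrum (𝓞 K)) : 1 < Ideal.absNorm v.asIdeal := by
  have h5 : Ideal.absNorm v.asIdeal ≠ 0 := by
    rw [Ne, Ideal.absNorm_eq_zero_iff]
    exact v.ne_bot
  have h6 : Ideal.absNorm v.asIdeal ≠ 1 := by
    rw [Ne, Ideal.absNorm_eq_one_iff]
    exact v.isPrime.ne_top
  omega

/-- the order of the Frobenius automorphisms modulo the inertia group -/
theorem frob_pow {v : HeightOneSpectrum (𝓞 K)} {u : HeightOneSpectrum (𝓞 F)}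
    (hu : u.asIdeal.comap (algebraMap (𝓞 K) (𝓞 F)) = v.asIdeal) {t : F ≃ₐ[K] F}
    (ht : ∀ x : 𝓞 F, t • x - x ^ Ideal.absNorm v.asIdeal ∈ u.asIdeal) (m : ℕ) :
    t ^ m ∈ u.asIdeal.inertia (F ≃ₐ[K] F) ↔ u.asIdeal.inertiaDeg (𝓞 K) ∣ m := by
  obtain ⟨h1, h2⟩ := norm_above hu
  have := u.isPrime
  have := u.isMaximal
  let _ : Field (𝓞 F ⧸ u.asIdeal) := Ideal.Quotient.field _
  have : Finite (𝓞 F ⧸ u.asIdeal) := Ideal.finiteQuotientOfFreeOfNeBot u.asIdeal u.ne_bot
  have hc : Nat.card (𝓞 F ⧸ u.asIdeal) = Ideal.absNorm v.asIdeal ^ u.asIdeal.inertiaDeg (𝓞 K) := by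
    rw [← h1, Ideal.absNorm_apply, Submodule.cardQuot_apply]
  rw [← ff_pow (norm_gt v) hc m]
  have h3 : ∀ (k : ℕ) (x : 𝓞 F), Ideal.Quotient.mk u.asIdeal (t ^ k • x) =
      Ideal.Quotient.mk u.asIdeal x ^ (Ideal.absNorm v.asIdeal ^ k) := by
    intro k
    induction k with
    | zero => intro x; simp
    | succ k ih =>
      intro x
      rw [pow_succ', mul_smul, Ideal.Quotient.eq.2 (ht _), map_pow, ih, pow_succ, pow_mul]
  constructor
  · intro h y
    obtain ⟨x, rfl⟩ := Ideal.Quotient.mk_surjective y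
    rw [← h3 m x]
    exact Ideal.Quotient.eq.2 (h x)
  · intro h x
    have h4 := h (Ideal.Quotient.mk _ x)
    rw [← h3 m x] at h4
    exact Ideal.Quotient.eq.1 h4

end fields

end Pool.Agent.L7h15.BK
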