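import Pool.Agent.K4H55.CX.AbL
import Pool.Agent.L7h15.BK.Dec

/-!
The characters of the Galois group of a class field as characters of the base field.
-/

set_option autoImplicit false
set_option linter.unusedSectionVars false

namespace Pool.Agent.L7h15.BK

open NumberField IsDedekindDomain
open Pool.Agent.K4H55.CX (CH CF Law ord)
open Pool.Agent.K4H55.BI (gen gen_span gen_dvd gen_prime gen_na gen_inj)

variable {K F : Type} [Field K] [NumberField K] [hP : IsPrincipalIdealRing (𝓞 K)]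
  [Field F] [NumberField F] [Algebra K F]

/-- `χ`, of conductor the product of the `v ∈ T`, corresponds to the character `ψ` -/
structure Rc (ψ : (F ≃ₐ[K] F) →* ℂˣ) (T : Finset (HeightOneSpectrum (𝓞 K))) (χ : 𝓞 K → ℂ) :
    Prop where
  ch : CH T χ
  ram : ∀ v ∈ T, ∀ u : HeightOneSpectrum (𝓞 F),
    u.asIdeal.comap (algebraMap (𝓞 K) (𝓞 F)) = v.asIdeal →
    ∃ t : F ≃ₐ[K] F, (∀ x : 𝓞 F, t • x - x ∈ u.asIdeal) ∧ ψ t ≠ 1
  frob : ∀ v : HeightOneSpectrum (𝓞 K), v ∉ T → ∀ u : HeightOneSpectrum (𝓞 F),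
    u.asIdeal.comap (algebraMap (𝓞 K) (𝓞 F)) = v.asIdeal →
    ∀ t : F ≃ₐ[K] F, (∀ x : 𝓞 F, t • x - x ^ Ideal.absNorm v.asIdeal ∈ u.asIdeal) →
      (ψ t : ℂ) = χ (gen v)

lemma gen_mem (v : HeightOneSpectrum (𝓞 K)) : gen v ∈ v.asIdeal := gen_dvd.1 dvd_rfl

variable [IsGalois K F]

lemma Rc.mem_iff {ψ : (F ≃ₐ[K] F) →* ℂˣ} {T : Finset (HeightOneSpectrum (𝓞 K))} {χ : 𝓞 K → ℂ}
    (h : Rc ψ T χ) {v : HeightOneSpectrum (𝓞 K)} {u : HeightOneSpectrum (𝓞 F)}
    (hu : u.asIdeal.comap (algebraMap (𝓞 K) (𝓞 F)) = v.asIdeal) :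
    v ∈ T ↔ ∃ t ∈ u.asIdeal.inertia (F ≃ₐ[K] F), ψ t ≠ 1 := by
  constructor
  · intro hv
    obtain ⟨t, h1, h2⟩ := h.ram v hv u hu
    exact ⟨t, h1, h2⟩
  · rintro ⟨s, hs, h1⟩
    by_contra hv
    obtain ⟨t, ht⟩ := exists_frob hu
    have h2 := h.frob v hv u hu t ht
    have h3 := h.frob v hv u hu (t * s) fun x => by
      have e : (t * s) • x - x ^ Ideal.absNorm v.asIdeal =
          (t • (s • x) - (s • x) ^ Ideal.absNorm v.asIdeal) +
            ((s • x) ^ Ideal.absNorm v.asIdeal - x ^ Ideal.absNorm v.asIdeal) := by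
        rw [mul_smul]; ring
      rw [e]
      exact u.asIdeal.add_mem (ht _) (u.asIdeal.mem_of_dvd (sub_dvd_pow_sub_pow _ _ _) (hs x))
    apply h1
    rw [← h2, map_mul, Units.val_mul] at h3
    have h4 : ψ s = 1 := by
      apply Units.ext
      have h5 : (ψ t : ℂ) ≠ 0 := (ψ t).ne_zero
      exact mul_left_cancel₀ h5 (by rw [h3]; simp)
    exact h4

lemma Rc.zero_iff {ψ : (F ≃ₐ[K] F) →* ℂˣ} {T : Finset (HeightOneSpectrum (𝓞 K))} {χ : 𝓞 K → ℂ}
    (h : Rc ψ T χ) (v : HeightOneSpectrum (𝓞 K)) : χ (gen v) = 0 ↔ v ∈ T := by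
  constructor
  · intro h1
    by_contra hv
    obtain ⟨u, hu⟩ := exists_above (F := F) v
    obtain ⟨t, ht⟩ := exists_frob hu
    have h2 := h.frob v hv u hu t ht
    rw [h1] at h2
    exact (ψ t).ne_zero h2
  · intro hv
    exact (h.ch.zero _).2 ⟨v, hv, gen_mem v⟩

/-- **the class field** -/
theorem cls (hab : ∀ s t : F ≃ₐ[K] F, s * t = t * s)
    {T : ((F ≃ₐ[K] F) →* ℂˣ) → Finset (HeightOneSpectrum (𝓞 K))}
    {χ : ((F ≃ₐ[K] F) →* ℂˣ) → 𝓞 K → ℂ} (h : ∀ ψ, Rc ψ (T ψ) (χ ψ)) :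
    CF T χ ∧ Law F χ := by
  have hTmul : ∀ g g' : (F ≃ₐ[K] F) →* ℂˣ, ∀ v, v ∉ T g → v ∉ T g' → v ∉ T (g * g') := by
    intro g g' v h1 h2 h3
    obtain ⟨u, hu⟩ := exists_above (F := F) v
    obtain ⟨t, ht, h4⟩ := ((h (g * g')).mem_iff hu).1 h3
    apply h4
    rw [MonoidHom.mul_apply]
    have h5 : g t = 1 := by
      by_contra h6
      exact h1 (((h g).mem_iff hu).2 ⟨t, ht, h6⟩)
    have h6 : g' t = 1 := by
      by_contra h7
      exact h2 (((h g').mem_iff hu).2 ⟨t, ht, h7⟩)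
    rw [h5, h6, one_mul]
  have hgen : ∀ g g' : (F ≃ₐ[K] F) →* ℂˣ, ∀ v, χ g (gen v) ≠ 0 → χ g' (gen v) ≠ 0 →
      χ (g * g') (gen v) = χ g (gen v) * χ g' (gen v) := by
    intro g g' v h1 h2
    have h3 : v ∉ T g := fun hv => h1 (((h g).zero_iff v).2 hv)
    have h4 : v ∉ T g' := fun hv => h2 (((h g').zero_iff v).2 hv)
    obtain ⟨u, hu⟩ := exists_above (F := F) v
    obtain ⟨t, ht⟩ := exists_frob hu
    rw [← (h g).frob v h3 u hu t ht, ← (h g').frob v h4 u hu t ht,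
      ← (h (g * g')).frob v (hTmul g g' v h3 h4) u hu t ht, MonoidHom.mul_apply, Units.val_mul]
  have hcf : CF T χ := by
    refine ⟨fun g => (h g).ch, fun g g' x => ?_⟩
    induction x using UniqueFactorizationMonoid.induction_on_prime with
    | h₁ =>
      intro h1 h2
      have hT : ∀ g : (F ≃ₐ[K] F) →* ℂˣ, χ g 0 ≠ 0 → T g = ∅ := by
        intro g hg
        rw [Finset.eq_empty_iff_forall_notMem]
        intro v hv
        exact hg (((h g).ch.zero 0).2 ⟨v, hv, v.asIdeal.zero_mem⟩)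
      have hone : ∀ g : (F ≃ₐ[K] F) →* ℂˣ, T g = ∅ → χ g 0 = 1 := by
        intro g hg
        rw [← (h g).ch.one]
        apply (h g).ch.prd
        intro v hv
        rw [hg] at hv
        exact absurd hv (Finset.notMem_empty v)
      have h3 := hT g h1
      have h4 := hT g' h2
      have h5 : T (g * g') = ∅ := by
        rw [Finset.eq_empty_iff_forall_notMem]
        intro v
        exact hTmul g g' v (by rw [h3]; exact Finset.notMem_empty v)
          (by rw [h4]; exact Finset.notMem_empty v)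
      rw [hone _ h3, hone _ h4, hone _ h5, one_mul]
    | h₂ x hx =>
      intro _ _
      rw [(h g).ch.unit x hx, (h g').ch.unit x hx, (h (g * g')).ch.unit x hx, one_mul]
    | h₃ a p ha hp ih =>
      intro h1 h2
      rw [(h g).ch.mul] at h1
      rw [(h g').ch.mul] at h2
      have h1' := left_ne_zero_of_mul h1
      have h2' := left_ne_zero_of_mul h2
      -- the place of `p`
      obtain ⟨v, hv⟩ : ∃ v : HeightOneSpectrum (𝓞 K), v.asIdeal = Ideal.span {p} :=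
        ⟨⟨Ideal.span {p}, (Ideal.span_singleton_prime hp.ne_zero).2 hp, by
          rw [Ne, Ideal.span_singleton_eq_bot]; exact hp.ne_zero⟩, rfl⟩
      have hass : Associated (gen v) p := by
        rw [← Ideal.span_singleton_eq_span_singleton, gen_span, hv]
      obtain ⟨e, he⟩ := hass
      have hχ : ∀ g : (F ≃ₐ[K] F) →* ℂˣ, χ g p = χ g (gen v) := by
        intro g
        rw [← he, (h g).ch.mul, (h g).ch.unit _ e.isUnit, mul_one]
      rw [(h g).ch.mul, (h g').ch.mul, (h (g * g')).ch.mul, ih (right_ne_zero_of_mul h1)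
        (right_ne_zero_of_mul h2), hχ, hχ, hχ, hgen g g' v (by rw [← hχ]; exact h1')
        (by rw [← hχ]; exact h2')]
      ring
  refine ⟨hcf, ?_⟩
  have hord : ∀ (v : HeightOneSpectrum (𝓞 K)) (u : HeightOneSpectrum (𝓞 F)),
      u.asIdeal.comap (algebraMap (𝓞 K) (𝓞 F)) = v.asIdeal →
      ord χ (gen v) = u.asIdeal.inertiaDeg (𝓞 K) := by
    intro v u hu
    obtain ⟨t, ht⟩ := exists_frob hu
    rw [← card_values' hab (u.asIdeal.inertia (F ≃ₐ[K] F)) t (norm_above hu).2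
      (fun m => frob_pow hu ht m)]
    unfold ord
    refine Nat.card_congr (Equiv.setCongr ?_)
    ext z
    constructor
    · rintro ⟨hz, g, rfl⟩
      have h1 : v ∉ T g := fun hv => hz (((h g).zero_iff v).2 hv)
      refine ⟨g, fun s hs => ?_, (h g).frob v h1 u hu t ht⟩
      by_contra h2
      exact h1 (((h g).mem_iff hu).2 ⟨s, hs, h2⟩)
    · rintro ⟨g, hg, rfl⟩
      have h1 : v ∉ T g := by
        intro hv
        obtain ⟨s, hs, h2⟩ := ((h g).mem_iff hu).1 hv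
        exact h2 (hg s hs)
      exact ⟨(g t).ne_zero, g, ((h g).frob v h1 u hu t ht).symm⟩
  refine ⟨fun v u hu => ?_, fun v => ?_⟩
  · rw [hord v u hu]
    exact (norm_above hu).1
  · obtain ⟨u, hu⟩ := exists_above (F := F) v
    rw [hord v u hu]
    have h1 := card_above hu
    have h2 := card_dual' hab (u.asIdeal.inertia (F ≃ₐ[K] F))
    have h3 : Nat.card {g // χ g (gen v) ≠ 0} =
        Nat.card {ψ : (F ≃ₐ[K] F) →* ℂˣ // ∀ t ∈ u.asIdeal.inertia (F ≃ₐ[K] F), ψ t = 1} := by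
      refine Nat.card_congr (Equiv.subtypeEquivRight fun g => ?_)
      rw [Ne, (h g).zero_iff v, (h g).mem_iff hu]
      push Not
      rfl
    have h4 := Subgroup.card_mul_index (u.asIdeal.inertia (F ≃ₐ[K] F))
    rw [h3, h2]
    have h5 : 0 < Nat.card (u.asIdeal.inertia (F ≃ₐ[K] F)) := Nat.card_pos
    apply Nat.eq_of_mul_eq_mul_left h5
    rw [h4, ← h1]
    ring

end Pool.Agent.L7h15.BK
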