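import Pool.Agent.L7h15.BK.Fac
import Pool.Agent.L7h15.BK.Cls

/-!
The `L`-series over a class field.
-/

set_option autoImplicit false
set_option linter.unusedSectionVars false

namespace Pool.Agent.L7h15.BK

open IsDedekindDomain NumberField IsLocalRing Pool.Agent.W189.NF Filter Topology
open Pool.Agent.H921R2.TatePole (nm two_le_nm)
open Pool.Agent.K4H55.CX (facF efx CH CF Law plc mem_plc mem_plc_K emb_int cpow_two)
open Pool.Agent.K4H55.BI (IQ BF Fser gen)
open Pool.Agent.K4H55.BK (Vals)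
open Pool.Agent.K4H55.BD (low mem_low)

section split

variable {K F : Type} [Field K] [NumberField K] [Field F] [NumberField F] [Algebra K F]

lemma comap_plc {v : HeightOneSpectrum (𝓞 K)} (ψ : F →ₐ[K] v.adicCompletion K) :
    (plc ψ).asIdeal.comap (algebraMap (𝓞 K) (𝓞 F)) = v.asIdeal := by
  have hmax := v.isMaximal
  have h1 : (plc ψ).asIdeal.comap (algebraMap (𝓞 K) (𝓞 F)) ≠ ⊤ :=
    Ideal.comap_ne_top _ (plc ψ).isPrime.ne_top
  have h2 : v.asIdeal ≤ (plc ψ).asIdeal.comap (algebraMap (𝓞 K) (𝓞 F)) := by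
    intro x hx
    rw [Ideal.mem_comap]
    exact mem_plc_K hx
  exact (hmax.eq_of_le h1 h2).symm

/-- the norm of the place of an embedding -/
lemma norm_plc {v : HeightOneSpectrum (𝓞 K)} (ψ : F →ₐ[K] v.adicCompletion K) :
    Ideal.absNorm (plc ψ).asIdeal ≤ Ideal.absNorm v.asIdeal := by
  let g : 𝓞 F →+* v.adicCompletionIntegers K :=
    { toFun := fun x => ⟨ψ (x : F), emb_int ψ.toRingHom x⟩
      map_one' := Subtype.ext (map_one ψ)
      map_mul' := fun x y => Subtype.ext (map_mul ψ _ _)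
      map_zero' := Subtype.ext (map_zero ψ)
      map_add' := fun x y => Subtype.ext (map_add ψ _ _) }
  have hg : ∀ x : 𝓞 F, (IsLocalRing.residue (v.adicCompletionIntegers K)) (g x) = 0 ↔
      x ∈ (plc ψ).asIdeal := by
    intro x
    rw [IsLocalRing.residue_eq_zero_iff, mem_max_iff, mem_plc]
    rfl
  have hfin := finite_res v
  have h1 : Nat.card (𝓞 F ⧸ (plc ψ).asIdeal) ≤
      Nat.card (ResidueField (v.adicCompletionIntegers K)) := by
    refine Nat.card_le_card_of_injective (Ideal.Quotient.lift (plc ψ).asIdeal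
      ((IsLocalRing.residue (v.adicCompletionIntegers K)).comp g)
      (fun x hx => (hg x).2 hx)) ?_
    rw [injective_iff_map_eq_zero]
    intro y hy
    obtain ⟨x, rfl⟩ := Ideal.Quotient.mk_surjective y
    rw [Ideal.Quotient.lift_mk] at hy
    exact Ideal.Quotient.eq_zero_iff_mem.2 ((hg x).1 hy)
  rw [card_res] at h1
  rw [Ideal.absNorm_apply, Submodule.cardQuot_apply]
  exact h1

/-- all the places above a place that splits completely have the same norm -/
theorem split_norm [IsGalois K F] {v : HeightOneSpectrum (𝓞 K)}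
    (ψ : F →ₐ[K] v.adicCompletion K) {u : HeightOneSpectrum (𝓞 F)}
    (hu : u.asIdeal.comap (algebraMap (𝓞 K) (𝓞 F)) = v.asIdeal) :
    Ideal.absNorm u.asIdeal = Ideal.absNorm v.asIdeal := by
  have h1 := norm_above (comap_plc ψ)
  have h2 := norm_above hu
  have : u.asIdeal.LiesOver v.asIdeal := ⟨hu.symm⟩
  have : (plc ψ).asIdeal.LiesOver v.asIdeal := ⟨(comap_plc ψ).symm⟩
  have := u.isPrime
  have := (plc ψ).isPrime
  have h3 : u.asIdeal.inertiaDeg (𝓞 K) = (plc ψ).asIdeal.inertiaDeg (𝓞 K) :=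
    Ideal.inertiaDeg_eq_of_isGaloisGroup v.asIdeal u.asIdeal (plc ψ).asIdeal (F ≃ₐ[K] F)
  have h4 := norm_plc ψ
  rw [h1.1] at h4
  have h5 : (plc ψ).asIdeal.inertiaDeg (𝓞 K) ≤ 1 := by
    by_contra h6
    push Not at h6
    have h7 := Nat.pow_lt_pow_right (norm_gt v) h6
    rw [pow_one] at h7
    omega
  have h6 : (plc ψ).asIdeal.inertiaDeg (𝓞 K) = 1 := le_antisymm h5 h1.2
  rw [h2.1, h3, h6, pow_one]

end split

section an

variable {M : Type} [Field M] [NumberField M] (E : WeierstrassCurve M)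

/-- the local factor -/
noncomputable def pol (u : HeightOneSpectrum (𝓞 M)) (s : ℂ) : ℂ :=
  1 - (aV E u : ℂ) * (nm u : ℂ) ^ (-s) + (eV E u : ℂ) * ((nm u : ℂ) ^ (-s)) ^ 2

lemma nm_cpow_diff (q : ℕ) (hq : q ≠ 0) : Differentiable ℂ fun s : ℂ => (q : ℂ) ^ (-s) := by
  intro s
  have : (q : ℂ) ≠ 0 := by exact_mod_cast hq
  exact (differentiableAt_id.neg).const_cpow (Or.inl this)

lemma pol_diff (u : HeightOneSpectrum (𝓞 M)) : Differentiable ℂ (pol E u) := by
  have h1 := nm_cpow_diff (nm u) (by have := two_le_nm u; omega)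
  unfold pol
  exact ((differentiable_const _).sub ((differentiable_const _).mul h1)).add
    ((differentiable_const _).mul (h1.pow 2))

/-- numbers `q ^ (-s)` for `Re s > 1 / 2` -/
lemma cpow_small {q : ℕ} (hq : 1 < q) {s : ℂ} (hs : 1 / 2 < s.re) :
    ‖(q : ℂ) ^ (-s)‖ * Real.sqrt q < 1 := by
  have hq1 : (1 : ℝ) < q := by exact_mod_cast hq
  rw [Complex.norm_natCast_cpow_of_pos (by omega), Complex.neg_re, Real.sqrt_eq_rpow,
    ← Real.rpow_add (by linarith)]
  exact Real.rpow_lt_one_of_one_lt_of_neg hq1 (by linarith)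

lemma pol_ne {u : HeightOneSpectrum (𝓞 M)} (h : HB (aV E u) (eV E u) (nm u)) {s : ℂ}
    (hs : 1 / 2 < s.re) : pol E u s ≠ 0 :=
  h.ne (by have := two_le_nm u; omega) (cpow_small (by have := two_le_nm u; omega) hs)

/-- the `L`-series is analytic for `Re s > 3 / 2` -/
lemma lser_an (hE : ∀ v : HeightOneSpectrum (𝓞 M), HB (aV E v) (eV E v) (nm v)) :
    AnalyticOnNhd ℂ E.LSeries {s : ℂ | (3 / 2 : ℝ) < s.re} := by
  intro s hs
  have hs' : (3 / 2 : ℝ) < s.re := hs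
  have hab : LSeries.abscissaOfAbsConv ((fun n : ℤ => (n : ℂ)) ∘ E.LFunction) ≤
      ((3 / 2 : ℝ) : EReal) :=
    LSeries.abscissaOfAbsConv_le_of_forall_lt_LSeriesSummable fun y hy =>
      (LSeries_hasProdB E hE (by
        rw [Complex.ofReal_re]
        exact hy)).1
  exact LSeries_analyticOnNhd ((fun n : ℤ => (n : ℂ)) ∘ E.LFunction) s (by
    refine lt_of_le_of_lt hab ?_
    exact_mod_cast hs')

end an

section main

variable {K : Type} [Field K] [NumberField K] [hP : IsPrincipalIdealRing (𝓞 K)] {σ : K →+* ℂ}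
  {δ : K} {n : 𝓞 K} {c : Ideal (𝓞 K) → ℂ} {F : Type} [Field F] [NumberField F] [Algebra K F]

/-- finitely many places contain a given number -/
lemma fin_bad {M : Type} [Field M] [NumberField M] {d : 𝓞 M} (hd : d ≠ 0) :
    {v : HeightOneSpectrum (𝓞 M) | d ∈ v.asIdeal}.Finite := by
  have h := Ideal.finite_factors (R := 𝓞 M) (I := Ideal.span {d})
    (fun h0 => hd (Ideal.span_singleton_eq_bot.1 h0))
  refine h.subset fun v hv => ?_
  show v.asIdeal ∣ Ideal.span {d}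
  rw [Ideal.dvd_span_singleton]
  exact hv

/-- the inverse of the local factor of a twist -/
noncomputable def tpol (n : 𝓞 K) (c : Ideal (𝓞 K) → ℂ) (z : ℂ) (v : HeightOneSpectrum (𝓞 K))
    (s : ℂ) : ℂ :=
  open Classical in
  1 - c v.asIdeal * z * (Ideal.absNorm v.asIdeal : ℂ) ^ (-s) +
    (if n ∈ v.asIdeal then 0 else z ^ 2 * (Ideal.absNorm v.asIdeal : ℂ) ^ (1 - 2 * s))

lemma efx_eq (χ : 𝓞 K → ℂ) (v : HeightOneSpectrum (𝓞 K)) (s : ℂ) :
    efx n c χ s v = (tpol n c (χ (gen v)) v s)⁻¹ := rfl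

lemma nv_ne (v : HeightOneSpectrum (𝓞 K)) : Ideal.absNorm v.asIdeal ≠ 0 := by
  have := norm_gt v
  omega

lemma tpol_eq (z : ℂ) (v : HeightOneSpectrum (𝓞 K)) (s : ℂ) {a e : ℤ} (ha : c v.asIdeal = a)
    (he : (e : ℂ) = open Classical in if n ∈ v.asIdeal then 0 else (Ideal.absNorm v.asIdeal : ℂ)) :
    tpol n c z v s = 1 - (a : ℂ) * (z * (Ideal.absNorm v.asIdeal : ℂ) ^ (-s)) +
      (e : ℂ) * (z * (Ideal.absNorm v.asIdeal : ℂ) ^ (-s)) ^ 2 := by
  unfold tpol
  rw [ha, he, cpow_two _ (nv_ne v)]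
  split_ifs <;> ring

lemma tpol_diff (z : ℂ) (v : HeightOneSpectrum (𝓞 K)) {a e : ℤ} (ha : c v.asIdeal = a)
    (he : (e : ℂ) = open Classical in if n ∈ v.asIdeal then 0 else (Ideal.absNorm v.asIdeal : ℂ)) :
    Differentiable ℂ (tpol n c z v) := by
  have h1 := nm_cpow_diff (Ideal.absNorm v.asIdeal) (nv_ne v)
  have h2 : tpol n c z v = fun s => 1 - (a : ℂ) * (z * (Ideal.absNorm v.asIdeal : ℂ) ^ (-s)) +
      (e : ℂ) * (z * (Ideal.absNorm v.asIdeal : ℂ) ^ (-s)) ^ 2 :=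
    funext fun s => tpol_eq z v s ha he
  rw [h2]
  exact ((differentiable_const _).sub ((differentiable_const _).mul
    ((differentiable_const _).mul h1))).add
    ((differentiable_const _).mul (((differentiable_const _).mul h1).pow 2))

lemma tpol_ne {z : ℂ} (hz : ‖z‖ ≤ 1) {v : HeightOneSpectrum (𝓞 K)} {s : ℂ} (hs : 1 / 2 < s.re)
    {a e : ℤ} (ha : c v.asIdeal = a)
    (he : (e : ℂ) = open Classical in if n ∈ v.asIdeal then 0 else (Ideal.absNorm v.asIdeal : ℂ))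
    (h : HB a e (Ideal.absNorm v.asIdeal)) : tpol n c z v s ≠ 0 := by
  rw [tpol_eq z v s ha he]
  refine h.ne (norm_gt v) (lt_of_le_of_lt ?_ (cpow_small (norm_gt v) hs))
  rw [norm_mul]
  gcongr
  exact mul_le_of_le_one_left (norm_nonneg _) hz

/-- values of a character of finite order -/
lemma ch_norm {T : Finset (HeightOneSpectrum (𝓞 K))} {χ : 𝓞 K → ℂ} (h : CH T χ) (x : 𝓞 K) :
    ‖χ x‖ ≤ 1 := by
  by_cases h0 : χ x = 0
  · rw [h0, norm_zero]
    exact zero_le_one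
  · obtain ⟨k, hk⟩ := h.pow
    exact (Complex.norm_eq_one_of_pow_eq_one (hk x h0) (by positivity)).le

/-- places above two have small norm -/
lemma nm_two (h : Module.finrank ℚ K = 2) {v : HeightOneSpectrum (𝓞 K)}
    (hv : (2 : 𝓞 K) ∈ v.asIdeal) : Ideal.absNorm v.asIdeal ≤ 4 := by
  have h1 : v.asIdeal ∣ Ideal.span {(2 : 𝓞 K)} := Ideal.dvd_span_singleton.2 hv
  have h2 := map_dvd Ideal.absNorm h1
  have h3 : Ideal.absNorm (Ideal.span {(2 : 𝓞 K)}) = 4 := by
    rw [Ideal.absNorm_span_singleton]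
    have h4 : (2 : 𝓞 K) = algebraMap ℤ (𝓞 K) 2 := by simp
    rw [h4, Algebra.norm_algebraMap, RingOfIntegers.rank, h]
    norm_num
  rw [h3] at h2
  exact Nat.le_of_dvd (by norm_num) h2

open Classical in
/-- **the `L`-series over a class field** -/
theorem end1 (h : IQ K σ δ) (hf : BF σ δ n c) {a b : 𝓞 K} (hΔ : 4 * a ^ 3 + 27 * b ^ 2 ≠ 0)
    (hloc : ∀ v : HeightOneSpectrum (𝓞 K), c v.asIdeal = (aV (cv (a : K) (b : K)) v : ℂ) ∧
      (eV (cv (a : K) (b : K)) v : ℂ) = if n ∈ v.asIdeal then 0 else (Ideal.absNorm v.asIdeal : ℂ))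
    {z : ℂ} (hz : Tendsto (fun t => Fser σ δ c 0 t) (𝓝[>] 0) (𝓝 z)) {ω : ℂ}
    (hω : ∀ l ∈ AddSubgroup.closure (Vals σ δ n c), ∃ j : ℤ, l = j * ω)
    (hω' : ω ∈ AddSubgroup.closure (Vals σ δ n c))
    (hodd : ∀ y ∈ AddSubgroup.closure (Vals σ δ n c),
      z ≠ 2 * (Nat.card {u : 𝓞 K // u ^ 4 = 1} : ℂ) * y)
    [IsGalois K F] (hab : ∀ s t : F ≃ₐ[K] F, s * t = t * s)
    (hψ : ∀ v : HeightOneSpectrum (𝓞 K), 2 * (4 * a ^ 3 + 27 * b ^ 2) ∈ v.asIdeal →
      Nonempty (F →ₐ[K] v.adicCompletion K))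
    {T : ((F ≃ₐ[K] F) →* ℂˣ) → Finset (HeightOneSpectrum (𝓞 K))}
    {χ : ((F ≃ₐ[K] F) →* ℂˣ) → 𝓞 K → ℂ} (hR : ∀ ψ, Rc ψ (T ψ) (χ ψ))
    (hadm : ∀ ψ, ∀ v ∈ T ψ, 2 * (4 * a ^ 3 + 27 * b ^ 2) ∉ v.asIdeal ∧
      ∀ x : 𝓞 K, x ^ 3 + a * x + b ∉ v.asIdeal) :
    ∃ (U : Set ℂ) (Φ : ℂ → ℂ),
      IsOpen U ∧ IsConnected U ∧ {s : ℂ | (3 / 2 : ℝ) < s.re} ⊆ U ∧ (1 : ℂ) ∈ U ∧
      AnalyticOnNhd ℂ Φ U ∧ (∀ s : ℂ, (3 / 2 : ℝ) < s.re →
        Φ s = (cv (algebraMap K F a) (algebraMap K F b)).LSeries s) ∧ Φ 1 ≠ 0 := by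
  obtain ⟨hcf, hl⟩ := cls hab hR
  set d : 𝓞 K := 2 * (4 * a ^ 3 + 27 * b ^ 2) with hd
  have hd0 : d ≠ 0 := mul_ne_zero two_ne_zero hΔ
  set E : WeierstrassCurve F := cv (algebraMap K F a) (algebraMap K F b) with hEd
  have hfinG : Finite ((F ≃ₐ[K] F) →* ℂˣ) := by
    refine Nat.finite_of_card_ne_zero ?_
    let _ : CommGroup (F ≃ₐ[K] F) := { (inferInstance : Group (F ≃ₐ[K] F)) with mul_comm := hab }
    have e := CommGroup.card_monoidHom_of_hasEnoughRootsOfUnity (F ≃ₐ[K] F) ℂ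
    have e2 : 0 < Nat.card (F ≃ₐ[K] F) := Nat.card_pos
    intro h0
    have e3 : Nat.card ((F ≃ₐ[K] F) →* ℂˣ) = Nat.card (F ≃ₐ[K] F) := e
    omega
  have : Fintype ((F ≃ₐ[K] F) →* ℂˣ) := Fintype.ofFinite _
  -- the good places
  have hgood : ∀ v : HeightOneSpectrum (𝓞 K), d ∉ v.asIdeal → n ∉ v.asIdeal ∧
      c v.asIdeal = (Ideal.absNorm v.asIdeal : ℂ) -
        npt (Ideal.Quotient.mk v.asIdeal a) (Ideal.Quotient.mk v.asIdeal b) := by
    intro v hv
    obtain ⟨h1, h2⟩ := loc_good (a := a) (b := b) hv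
    obtain ⟨h3, h4⟩ := hloc v
    have hnm : nm v = Ideal.absNorm v.asIdeal := rfl
    constructor
    · intro hn
      rw [if_pos hn, h2] at h4
      have h5 : nm v = 0 := by exact_mod_cast h4
      have := two_le_nm v
      omega
    · rw [h3, h1, hnm]
      push_cast
      ring
  -- the bounds
  have hnv4 : ∀ v : HeightOneSpectrum (𝓞 K), (2 : 𝓞 K) ∈ v.asIdeal → Ideal.absNorm v.asIdeal ≤ 4 :=
    fun v hv => nm_two h.deg hv
  have hHK : ∀ v : HeightOneSpectrum (𝓞 K), HB (aV (cv (a : K) (b : K)) v)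
      (eV (cv (a : K) (b : K)) v) (nm v) := by
    intro v
    refine hb_place _ v ?_
    by_cases h2 : (2 : 𝓞 K) ∈ v.asIdeal
    · exact Or.inr (hnv4 v h2)
    · exact Or.inl h2
  have hHF : ∀ u : HeightOneSpectrum (𝓞 F), HB (aV E u) (eV E u) (nm u) := by
    intro u
    refine hb_place _ u ?_
    by_cases h2 : (2 : 𝓞 F) ∈ u.asIdeal
    · right
      have h3 : (2 : 𝓞 K) ∈ (low (K := K) u).asIdeal := by
        rw [mem_low, map_ofNat]
        exact h2
      obtain ⟨ψ⟩ := hψ (low u) (Ideal.mul_mem_right _ _ h3)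
      have h4 : nm u = Ideal.absNorm u.asIdeal := rfl
      rw [h4, split_norm ψ (u := u) rfl]
      exact hnv4 _ h3
    · exact Or.inl h2
  -- the values at the admissible places
  have hT : ∀ ψ, ∀ v ∈ T ψ, (2 : 𝓞 K) ∉ v.asIdeal ∧ n ∉ v.asIdeal ∧
      ∃ m : ℤ, c v.asIdeal = m ∧ m % 2 = 1 := by
    intro ψ v hv
    obtain ⟨h1, h2⟩ := hadm ψ v hv
    have h3 : (2 : 𝓞 K) ∉ v.asIdeal := fun h2 => h1 (v.asIdeal.mul_mem_right _ h2)
    obtain ⟨h4, h5⟩ := hgood v h1
    refine ⟨h3, h4, (Ideal.absNorm v.asIdeal : ℤ) -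
      npt (Ideal.Quotient.mk v.asIdeal a) (Ideal.Quotient.mk v.asIdeal b), ?_, ?_⟩
    · rw [h5]
      push_cast
      ring
    · obtain ⟨k, hk⟩ := Pool.Agent.K4H55.BD.pv_even (a := a) (b := b) h3 h2
      have hk' : npt (Ideal.Quotient.mk v.asIdeal a) (Ideal.Quotient.mk v.asIdeal b) = 2 * k := hk
      have h6 := Pool.Agent.K4H55.BM.norm_odd h3
      rw [Nat.odd_iff] at h6
      omega
  have hz0 : z ≠ 0 := by
    have := hodd 0 (AddSubgroup.zero_mem _)
    rwa [mul_zero] at this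
  obtain ⟨G, τ, x, k, g1, g2, -, -, g5, g6⟩ :=
    Pool.Agent.K4H55.CX.ab_unit (F := F) h hf hcf hl hT hz hω hω' hodd
  have hG1 : G 1 ≠ 0 := Pool.Agent.K4H55.CX.ne_of_unit (m := Nat.card ((F ≃ₐ[K] F) →* ℂˣ))
    (τ := τ) (k := k) g5 (mul_ne_zero (Pool.Agent.K4H55.CX.A_ne h) hz0) g6
  -- the factors
  set Ab : HeightOneSpectrum (𝓞 K) → Type := fun v => {u : HeightOneSpectrum (𝓞 F) //
    u.asIdeal.comap (algebraMap (𝓞 K) (𝓞 F)) = v.asIdeal} with hAb
  have hAfin : ∀ v, Finite (Ab v) := by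
    intro v
    have h1 := hl.card v
    refine Nat.finite_of_card_ne_zero fun h0 => ?_
    have h2 : Nat.card {u : HeightOneSpectrum (𝓞 F) //
      u.asIdeal.comap (algebraMap (𝓞 K) (𝓞 F)) = v.asIdeal} = 0 := h0
    rw [h2, zero_mul] at h1
    have h3 : Nonempty {g // χ g (gen v) ≠ 0} := ⟨⟨1, by rw [hcf.triv]; exact one_ne_zero⟩⟩
    have h4 : 0 < Nat.card {g // χ g (gen v) ≠ 0} := Nat.card_pos
    omega
  have hAft : ∀ v, Fintype (Ab v) := fun v => Fintype.ofFinite _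
  set B : Finset (HeightOneSpectrum (𝓞 K)) := (fin_bad hd0).toFinset with hB
  have hBm : ∀ v, v ∈ B ↔ d ∈ v.asIdeal := fun v => by
    rw [hB, Set.Finite.mem_toFinset]
    rfl
  set P : ℂ → ℂ := fun s => ∏ v ∈ B, ∏ u : Ab v, pol E u.1 s with hPd
  set Q : ℂ → ℂ := fun s => ∏ v ∈ B, ∏ ψ, tpol n c (χ ψ (gen v)) v s with hQd
  have hPdiff : Differentiable ℂ P := by
    refine Differentiable.fun_finsetProd fun v _ => Differentiable.fun_finsetProd fun u _ => ?_
    exact pol_diff E u.1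
  have hQdiff : Differentiable ℂ Q := by
    refine Differentiable.fun_finsetProd fun v _ => Differentiable.fun_finsetProd fun ψ _ => ?_
    exact tpol_diff _ v (hloc v).1 (hloc v).2
  have hPne : ∀ s : ℂ, 1 / 2 < s.re → P s ≠ 0 := fun s hs =>
    Finset.prod_ne_zero_iff.2 fun v _ => Finset.prod_ne_zero_iff.2 fun u _ => pol_ne E (hHF u.1) hs
  have hQne : ∀ s : ℂ, 1 / 2 < s.re → Q s ≠ 0 := fun s hs =>
    Finset.prod_ne_zero_iff.2 fun v _ => Finset.prod_ne_zero_iff.2 fun ψ _ =>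
      tpol_ne (ch_norm (hR ψ).ch _) hs (hloc v).1 (hloc v).2 (hHK v)
  -- the comparison for `Re s > 2`
  have hcomp : ∀ s : ℂ, 2 < s.re → E.LSeries s * P s = G s * Q s := by
    intro s hs
    have h1 := (LSeries_hasProdB E hHF (s := s) (by linarith)).2
    have h2 : HasProd (fun v : HeightOneSpectrum (𝓞 K) => ∏ u : Ab v, (pol E u.1 s)⁻¹)
        (E.LSeries s) := by
      let e : (Σ v : HeightOneSpectrum (𝓞 K), Ab v) ≃ HeightOneSpectrum (𝓞 F) :=
        { toFun := fun x => x.2.1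
          invFun := fun u => ⟨low u, ⟨u, rfl⟩⟩
          left_inv := by
            rintro ⟨v, u, hu⟩
            have hv : low (K := K) u = v := HeightOneSpectrum.ext hu
            subst hv
            rfl
          right_inv := fun u => rfl }
      have h3 := e.hasProd_iff.2 h1
      refine h3.sigma fun v => ?_
      exact hasProd_fintype _ (.unconditional _)
    have h3 := g2 s hs
    have h4 : HasProd (fun v : HeightOneSpectrum (𝓞 K) =>
        if v ∈ B then ∏ u : Ab v, pol E u.1 s else 1) (P s) := by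
      have h6 := hasProd_prod_of_ne_finset_one (L := .unconditional _) (s := B)
        (f := fun v : HeightOneSpectrum (𝓞 K) =>
          if v ∈ B then ∏ u : Ab v, pol E u.1 s else 1) (fun v hv => if_neg hv)
      rw [Finset.prod_congr rfl (fun v hv => if_pos hv)] at h6
      exact h6
    have h5 : HasProd (fun v : HeightOneSpectrum (𝓞 K) =>
        if v ∈ B then ∏ ψ, tpol n c (χ ψ (gen v)) v s else 1) (Q s) := by
      have h6 := hasProd_prod_of_ne_finset_one (L := .unconditional _) (s := B)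
        (f := fun v : HeightOneSpectrum (𝓞 K) =>
          if v ∈ B then ∏ ψ, tpol n c (χ ψ (gen v)) v s else 1) (fun v hv => if_neg hv)
      rw [Finset.prod_congr rfl (fun v hv => if_pos hv)] at h6
      exact h6
    refine (h2.mul h4).unique ((h3.mul h5).congr_fun fun v => ?_)
    have hab' := Pool.Agent.K4H55.CX.above_prod (n := n) (c := c) hcf hl v s
    have hs2 : (1 / 2 : ℝ) < s.re := by linarith
    by_cases hv : v ∈ B
    · rw [if_pos hv, if_pos hv, Finset.prod_inv_distrib, hab', Finset.prod_congr rfl fun ψ _ =>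
        efx_eq (n := n) (c := c) (χ ψ) v s, Finset.prod_inv_distrib,
        inv_mul_cancel₀ (Finset.prod_ne_zero_iff.2 fun u _ => pol_ne E (hHF u.1) hs2),
        inv_mul_cancel₀ (Finset.prod_ne_zero_iff.2 fun ψ _ =>
          tpol_ne (ch_norm (hR ψ).ch _) hs2 (hloc v).1 (hloc v).2 (hHK v))]
    · rw [if_neg hv, if_neg hv, mul_one, mul_one]
      have hdv : d ∉ v.asIdeal := fun h0 => hv ((hBm v).2 h0)
      obtain ⟨k1, k2⟩ := hgood v hdv
      have e1 : ∏ᶠ u : Ab v, facF n c v (Ideal.absNorm u.1.asIdeal) s =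
          ∏ u : Ab v, facF n c v (Ideal.absNorm u.1.asIdeal) s := finprod_eq_prod_of_fintype _
      refine Eq.trans ?_ e1.symm
      refine Finset.prod_congr rfl fun u _ => ?_
      exact fac_eq u.2 hdv k1 k2 (hl.norm v u.1 u.2) s
  -- the comparison for `Re s > 3 / 2`
  have hcomp' : ∀ s : ℂ, (3 / 2 : ℝ) < s.re → E.LSeries s * P s = G s * Q s := by
    have hU : IsPreconnected {s : ℂ | (3 / 2 : ℝ) < s.re} :=
      (convex_halfSpace_re_gt (3 / 2)).isPreconnected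
    have h1 : AnalyticOnNhd ℂ (fun s => E.LSeries s * P s) {s : ℂ | (3 / 2 : ℝ) < s.re} :=
      fun s hs => (lser_an E hHF s hs).mul (hPdiff.analyticAt s)
    have h2 : AnalyticOnNhd ℂ (fun s => G s * Q s) {s : ℂ | (3 / 2 : ℝ) < s.re} :=
      fun s _ => (g1.analyticAt s).mul (hQdiff.analyticAt s)
    have h3 : (3 : ℂ) ∈ {s : ℂ | (3 / 2 : ℝ) < s.re} := by
      show (3 / 2 : ℝ) < (3 : ℂ).re
      norm_num
    have h4 : (fun s => E.LSeries s * P s) =ᶠ[𝓝 (3 : ℂ)] fun s => G s * Q s := by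
      have h5 : {s : ℂ | (2 : ℝ) < s.re} ∈ 𝓝 (3 : ℂ) :=
        (isOpen_lt continuous_const Complex.continuous_re).mem_nhds (by
          show (2 : ℝ) < (3 : ℂ).re
          norm_num)
      filter_upwards [h5] with s hs using hcomp s hs
    intro s hs
    exact h1.eqOn_of_preconnected_of_eventuallyEq h2 hU h3 h4 hs
  -- the continuation
  set L : ℂ → ℂ := fun s => G s * Q s / P s with hL
  have hmer : Meromorphic L := fun s =>
    (((g1.analyticAt s).mul (hQdiff.analyticAt s)).meromorphicAt).div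
      ((hPdiff.analyticAt s).meromorphicAt)
  have hLan : ∀ s : ℂ, P s ≠ 0 → AnalyticAt ℂ L s := fun s hs =>
    ((g1.analyticAt s).mul (hQdiff.analyticAt s)).div (hPdiff.analyticAt s) hs
  have h1re : (1 / 2 : ℝ) < (1 : ℂ).re := by norm_num
  refine ⟨{s | AnalyticAt ℂ L s}, L, isOpen_analyticAt ℂ L, ?_, ?_, hLan 1 (hPne 1 h1re),
    fun s hs => hs, ?_, ?_⟩
  · have h5 : IsConnected ({s : ℂ | AnalyticAt ℂ L s}ᶜ)ᶜ :=
      Set.Countable.isConnected_compl_of_one_lt_rank (by simp) hmer.countable_compl_analyticAt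
    rwa [compl_compl] at h5
  · intro s hs
    exact hLan s (hPne s (by
      have : (3 / 2 : ℝ) < s.re := hs
      linarith))
  · intro s hs
    show G s * Q s / P s = _
    rw [div_eq_iff (hPne s (by linarith)), hcomp' s hs]
  · show G 1 * Q 1 / P 1 ≠ 0
    exact div_ne_zero (mul_ne_zero hG1 (hQne 1 h1re)) (hPne 1 h1re)

end main

end Pool.Agent.L7h15.BK
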