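import Pool.Agent.L7h15.BK.Hb
import Pool.Agent.K4H55.CX.Ab

/-!
The local factors at the places of good reduction of an extension.
-/

set_option autoImplicit false
set_option linter.unusedSectionVars false

namespace Pool.Agent.L7h15.BK

open IsDedekindDomain NumberField IsLocalRing Pool.Agent.W189.NF
open Pool.Agent.H921R2.TatePole (nm two_le_nm)
open Pool.Agent.Y698 (AP min_count)
open Pool.Agent.K4H55.CX (facF luc cpow_two)

/-- the curve `y² = x³ + a x + b` -/
def cv {R : Type*} [CommRing R] (a b : R) : WeierstrassCurve R := ⟨0, 0, 0, a, b⟩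

lemma cv_map {R S : Type*} [CommRing R] [CommRing S] (f : R →+* S) (a b : R) :
    (cv a b).map f = cv (f a) (f b) := by
  unfold cv WeierstrassCurve.map
  simp

lemma cv_Δ {R : Type*} [CommRing R] (a b : R) : (cv a b).Δ = -16 * (4 * a ^ 3 + 27 * b ^ 2) := by
  simp only [cv, WeierstrassCurve.Δ, WeierstrassCurve.b₂, WeierstrassCurve.b₄,
    WeierstrassCurve.b₆, WeierstrassCurve.b₈]
  ring

/-- the number of the affine points of `y² = x³ + a x + b` over a ring -/
noncomputable def npt {k : Type*} [CommRing k] (a b : k) : ℕ :=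
  Nat.card {x : k × k // x.2 ^ 2 = x.1 ^ 3 + a * x.1 + b}

section places

variable {M : Type} [Field M] [NumberField M]

/-- the residue fields -/
noncomputable def resE (v : HeightOneSpectrum (𝓞 M)) :
    (𝓞 M ⧸ v.asIdeal) ≃+* IsLocalRing.ResidueField (Ov v) :=
  RingEquiv.ofBijective (Ideal.Quotient.lift v.asIdeal (redMap v)
    (fun a ha => (redMap_eq_zero v a).2 ha)) ⟨by
      rw [injective_iff_map_eq_zero]
      intro x hx
      obtain ⟨a, rfl⟩ := Ideal.Quotient.mk_surjective x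
      rw [Ideal.Quotient.lift_mk] at hx
      exact Ideal.Quotient.eq_zero_iff_mem.2 ((redMap_eq_zero v a).1 hx), by
      intro y
      obtain ⟨a, rfl⟩ := redMap_surjective v y
      exact ⟨Ideal.Quotient.mk _ a, rfl⟩⟩

lemma resE_mk (v : HeightOneSpectrum (𝓞 M)) (x : 𝓞 M) :
    resE v (Ideal.Quotient.mk _ x) = redMap v x := rfl

lemma coe_comp' (v : HeightOneSpectrum (𝓞 M)) (x : 𝓞 M) :
    algebraMap (Ov v) (v.adicCompletion M) (algebraMap (𝓞 M) (Ov v) x) =
      algebraMap M (v.adicCompletion M) (x : M) := by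
  rw [HeightOneSpectrum.algebraMap_adicCompletion]
  rfl

lemma isUnit_of_notMem' {v : HeightOneSpectrum (𝓞 M)} {x : 𝓞 M} (hx : x ∉ v.asIdeal) :
    IsUnit (algebraMap (𝓞 M) (Ov v) x) := by
  rw [← IsLocalRing.residue_ne_zero_iff_isUnit]
  intro h
  exact hx ((redMap_eq_zero v x).1 h)

/-- the local factor of Mathlib at a place of good reduction -/
theorem loc_good {a b : 𝓞 M} {v : HeightOneSpectrum (𝓞 M)}
    (hv : 2 * (4 * a ^ 3 + 27 * b ^ 2) ∉ v.asIdeal) :
    aV (cv (a : M) (b : M)) v = (nm v : ℤ) - npt (Ideal.Quotient.mk v.asIdeal a)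
      (Ideal.Quotient.mk v.asIdeal b) ∧ eV (cv (a : M) (b : M)) v = nm v := by
  have hfin := finite_res v
  have hunit : IsUnit ((cv (algebraMap (𝓞 M) (Ov v) a) (algebraMap (𝓞 M) (Ov v) b)).Δ) := by
    have h2 : (2 : 𝓞 M) ∉ v.asIdeal := fun h => hv (v.asIdeal.mul_mem_right _ h)
    have h3 : 4 * a ^ 3 + 27 * b ^ 2 ∉ v.asIdeal := fun h => hv (v.asIdeal.mul_mem_left _ h)
    have h4 := (isUnit_of_notMem' h2).pow 4
    have h5 := isUnit_of_notMem' h3
    rw [cv_Δ]
    have e : (-16 : Ov v) * (4 * algebraMap (𝓞 M) (Ov v) a ^ 3 +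
        27 * algebraMap (𝓞 M) (Ov v) b ^ 2) =
        -((algebraMap (𝓞 M) (Ov v) 2) ^ 4 * algebraMap (𝓞 M) (Ov v) (4 * a ^ 3 + 27 * b ^ 2)) := by
      simp only [map_add, map_mul, map_pow, map_ofNat]
      ring
    rw [e, IsUnit.neg_iff]
    exact h4.mul h5
  obtain ⟨c1, c2⟩ := min_count (v.adicCompletionIntegers M) hunit
    (W := (cv (a : M) (b : M)).baseChange (v.adicCompletion M)) (by
      unfold WeierstrassCurve.baseChange
      rw [cv_map, cv_map, coe_comp', coe_comp'])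
  have hAP : Nat.card (AP ((cv (algebraMap (𝓞 M) (Ov v) a) (algebraMap (𝓞 M) (Ov v) b)).map
      (IsLocalRing.residue (Ov v)))) = npt (Ideal.Quotient.mk v.asIdeal a)
        (Ideal.Quotient.mk v.asIdeal b) := by
    unfold npt AP
    refine (Nat.card_congr (Equiv.subtypeEquiv
      (Equiv.prodCongr (resE v).toEquiv (resE v).toEquiv) fun x => ?_)).symm
    rw [cv_map, WeierstrassCurve.Affine.equation_iff]
    unfold cv
    simp only [zero_mul, add_zero]
    show _ ↔ (resE v x.2) ^ 2 = (resE v x.1) ^ 3 + (redMap v a) * resE v x.1 + redMap v b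
    rw [← resE_mk, ← resE_mk, ← map_pow, ← map_pow, ← map_mul, ← map_add, ← map_add,
      (resE v).injective.eq_iff]
  constructor
  · unfold aV
    rw [c1, hAP, card_res]
  · unfold eV
    rw [c2, card_res]

end places

section count

open Polynomial
open Pool.Agent.H341R2.Sharp
open W165.CE (wei wei_natDegree wei_monic A_two T_luc eval₂_wei aeval_wei)

/-- the points over an extension of a finite field of odd characteristic -/
theorem npt_ext {k k' : Type} [Field k] [Finite k] [Field k'] [Finite k'] [Algebra k k']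
    (h2 : (2 : k) ≠ 0) {a b : k} (hD : 4 * a ^ 3 + 27 * b ^ 2 ≠ 0) :
    (Nat.card k' : ℤ) - npt (algebraMap k k' a) (algebraMap k k' b) =
      Pool.Agent.H82R3.EK.luc ((Nat.card k : ℤ) - npt a b) (Nat.card k) (Module.finrank k k') := by
  classical
  have : Fintype k := Fintype.ofFinite k
  have : Fintype k' := Fintype.ofFinite k'
  have hk : ringChar k ≠ 2 := by
    intro h
    apply h2
    have := ringChar.Nat.cast_ringChar (R := k)
    rw [h] at this
    exact_mod_cast this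
  have hk' : ringChar k' ≠ 2 := by
    rwa [← Algebra.ringChar_eq k k']
  have hcount : ∀ (E : Type) [Field E] [Fintype E] [DecidableEq E] [Algebra k E],
      ringChar E ≠ 2 → ((Nat.card E : ℤ) - npt (algebraMap k E a) (algebraMap k E b)) =
        -T (wei a b) (Module.finrank k E) := by
    intro E _ _ _ _ hE
    have h1 := T_eq_sum (E := E) hk (wei a b)
    have h3 := Pool.Agent.H82R3.EK.card_points hE (fun x : E => x ^ 3 + algebraMap k E a * x +
      algebraMap k E b)
    unfold npt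
    rw [h3, h1, Nat.card_eq_fintype_card]
    have h4 : ∀ x : E, quadraticChar E (aeval x (wei a b)) =
        quadraticChar E (x ^ 3 + algebraMap k E a * x + algebraMap k E b) := fun x => by
      rw [aeval_wei]
    rw [Finset.sum_congr rfl fun x _ => h4 x]
    ring
  have e1 := hcount k' hk'
  have e2 := hcount k hk
  rw [Module.finrank_self] at e2
  have e3 : npt (algebraMap k k a) (algebraMap k k b) = npt a b := rfl
  rw [e3] at e2
  rw [e1, e2]
  obtain ⟨n, hn⟩ : ∃ n, Module.finrank k k' = n + 1 :=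
    ⟨Module.finrank k k' - 1, by have : 0 < Module.finrank k k' := Module.finrank_pos; omega⟩
  have h5 := T_luc hk (wei_natDegree a b) (wei_monic a b) n
  rw [A_two hk a b hD] at h5
  rw [hn, h5, neg_neg, Nat.card_eq_fintype_card]

end count

/-- the sequences of Lucas -/
lemma luc_cast (a q : ℤ) (n : ℕ) :
    luc (a : ℂ) (q : ℂ) n = ((Pool.Agent.H82R3.EK.luc a q n : ℤ) : ℂ) := by
  induction n using Nat.twoStepInduction with
  | zero => simp [luc, Pool.Agent.H82R3.EK.luc]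
  | one => simp [luc, Pool.Agent.H82R3.EK.luc]
  | more n h1 h2 =>
    rw [luc, Pool.Agent.H82R3.EK.luc, h1, h2]
    push_cast
    ring

section ext

variable {K F : Type} [Field K] [NumberField K] [Field F] [NumberField F] [Algebra K F]

/-- the points modulo a place above -/
theorem npt_above {a b : 𝓞 K} {v : HeightOneSpectrum (𝓞 K)} {u : HeightOneSpectrum (𝓞 F)}
    (hu : u.asIdeal.comap (algebraMap (𝓞 K) (𝓞 F)) = v.asIdeal)
    (hv : 2 * (4 * a ^ 3 + 27 * b ^ 2) ∉ v.asIdeal) {f : ℕ}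
    (hf : Ideal.absNorm u.asIdeal = Ideal.absNorm v.asIdeal ^ f) :
    (Ideal.absNorm u.asIdeal : ℤ) - npt (Ideal.Quotient.mk u.asIdeal (algebraMap (𝓞 K) (𝓞 F) a))
      (Ideal.Quotient.mk u.asIdeal (algebraMap (𝓞 K) (𝓞 F) b)) =
      Pool.Agent.H82R3.EK.luc ((Ideal.absNorm v.asIdeal : ℤ) -
        npt (Ideal.Quotient.mk v.asIdeal a) (Ideal.Quotient.mk v.asIdeal b))
        (Ideal.absNorm v.asIdeal) f := by
  have : u.asIdeal.LiesOver v.asIdeal := ⟨hu.symm⟩
  have := u.isMaximal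
  have := v.isMaximal
  let _ : Field (𝓞 F ⧸ u.asIdeal) := Ideal.Quotient.field _
  let _ : Field (𝓞 K ⧸ v.asIdeal) := Ideal.Quotient.field _
  have : Finite (𝓞 F ⧸ u.asIdeal) := Ideal.finiteQuotientOfFreeOfNeBot u.asIdeal u.ne_bot
  have : Finite (𝓞 K ⧸ v.asIdeal) := Ideal.finiteQuotientOfFreeOfNeBot v.asIdeal v.ne_bot
  have hcu : Nat.card (𝓞 F ⧸ u.asIdeal) = Ideal.absNorm u.asIdeal := by
    rw [Ideal.absNorm_apply, Submodule.cardQuot_apply]
  have hcv : Nat.card (𝓞 K ⧸ v.asIdeal) = Ideal.absNorm v.asIdeal := by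
    rw [Ideal.absNorm_apply, Submodule.cardQuot_apply]
  have h2 : (2 : 𝓞 K ⧸ v.asIdeal) ≠ 0 := by
    intro h
    apply hv
    apply v.asIdeal.mul_mem_right
    rw [← Ideal.Quotient.eq_zero_iff_mem, map_ofNat]
    exact h
  have hD : 4 * (Ideal.Quotient.mk v.asIdeal a) ^ 3 + 27 * (Ideal.Quotient.mk v.asIdeal b) ^ 2 ≠
      0 := by
    intro h
    apply hv
    apply v.asIdeal.mul_mem_left
    rw [← Ideal.Quotient.eq_zero_iff_mem]
    simp only [map_add, map_mul, map_pow, map_ofNat]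
    exact h
  have h := npt_ext (k := 𝓞 K ⧸ v.asIdeal) (k' := 𝓞 F ⧸ u.asIdeal) h2 hD
  have hfr : Module.finrank (𝓞 K ⧸ v.asIdeal) (𝓞 F ⧸ u.asIdeal) = f := by
    have h3 := Module.natCard_eq_pow_finrank (K := 𝓞 K ⧸ v.asIdeal) (V := 𝓞 F ⧸ u.asIdeal)
    rw [hcu, hcv, hf] at h3
    have h4 : 1 < Ideal.absNorm v.asIdeal := by
      rw [← hcv]
      exact Finite.one_lt_card
    exact (Nat.pow_right_injective h4 h3).symm
  rw [hfr, hcu, hcv] at h
  exact h

/-- **the local factors at the good places** -/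
theorem fac_eq {a b n : 𝓞 K} {c : Ideal (𝓞 K) → ℂ} {v : HeightOneSpectrum (𝓞 K)}
    {u : HeightOneSpectrum (𝓞 F)} (hu : u.asIdeal.comap (algebraMap (𝓞 K) (𝓞 F)) = v.asIdeal)
    (hv : 2 * (4 * a ^ 3 + 27 * b ^ 2) ∉ v.asIdeal) (hn : n ∉ v.asIdeal)
    (hc : c v.asIdeal = (Ideal.absNorm v.asIdeal : ℂ) -
      npt (Ideal.Quotient.mk v.asIdeal a) (Ideal.Quotient.mk v.asIdeal b)) {f : ℕ}
    (hf : Ideal.absNorm u.asIdeal = Ideal.absNorm v.asIdeal ^ f) (s : ℂ) :
    (1 - (aV (cv (algebraMap K F a) (algebraMap K F b)) u : ℂ) * (nm u : ℂ) ^ (-s) +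
      (eV (cv (algebraMap K F a) (algebraMap K F b)) u : ℂ) * ((nm u : ℂ) ^ (-s)) ^ 2)⁻¹ =
      facF n c v (Ideal.absNorm u.asIdeal) s := by
  have hv' : 2 * (4 * (algebraMap (𝓞 K) (𝓞 F) a) ^ 3 + 27 * (algebraMap (𝓞 K) (𝓞 F) b) ^ 2) ∉
      u.asIdeal := by
    intro h
    apply hv
    rw [← hu, Ideal.mem_comap]
    simpa only [map_mul, map_add, map_pow, map_ofNat] using h
  obtain ⟨h1, h2⟩ := loc_good hv'
  have e1 : cv (((algebraMap (𝓞 K) (𝓞 F) a : 𝓞 F)) : F) ((algebraMap (𝓞 K) (𝓞 F) b : 𝓞 F) : F) =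
      cv (algebraMap K F a) (algebraMap K F b) := rfl
  rw [e1] at h1 h2
  have h3 := npt_above hu hv hf
  have hnm : nm u = Ideal.absNorm u.asIdeal := rfl
  have hq1 : 1 < Ideal.absNorm v.asIdeal := by
    have := two_le_nm v
    have e : nm v = Ideal.absNorm v.asIdeal := rfl
    omega
  have hQ0 : Ideal.absNorm u.asIdeal ≠ 0 := by
    have := two_le_nm u
    rw [hnm] at this
    omega
  rw [hnm] at h1 h2
  rw [h1, h2, h3, hnm]
  unfold facF
  rw [if_neg hn, cpow_two _ hQ0]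
  have h4 : Nat.log (Ideal.absNorm v.asIdeal) (Ideal.absNorm u.asIdeal) = f := by
    rw [hf, Nat.log_pow hq1]
  have h5 : c v.asIdeal = (((Ideal.absNorm v.asIdeal : ℤ) -
      npt (Ideal.Quotient.mk v.asIdeal a) (Ideal.Quotient.mk v.asIdeal b) : ℤ) : ℂ) := by
    rw [hc]
    push_cast
    ring
  have h6 : ((Ideal.absNorm v.asIdeal : ℕ) : ℂ) = (((Ideal.absNorm v.asIdeal : ℕ) : ℤ) : ℂ) := by
    push_cast
    rfl
  rw [h4, h5]
  conv_rhs => rw [h6]
  rw [luc_cast, Int.cast_natCast]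

end ext

end Pool.Agent.L7h15.BK
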