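import Pool.Agent.Y696.Hss
import Pool.Agent.Y698.Lf
import Pool.Agent.W165.CE.FF

/-!
The bound of Hasse for the local factors of a Weierstrass curve over a number field, and the Euler
product of the `L`-series for `Re s > 3 / 2`.
-/

set_option autoImplicit false
set_option linter.unusedSectionVars false

namespace Pool.Agent.L7h15.BK

open IsDedekindDomain NumberField IsLocalRing ArithmeticFunction Pool.Agent.W189.NF
open Pool.Agent.H921R2.TatePole (nm two_le_nm nm_summable)
open Pool.Agent.Y696 (HBd coeff_bd)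

/-- the bounds for the coefficients of a local factor -/
def HB (a e : ℤ) (q : ℕ) : Prop :=
  (|a| ≤ 1 ∧ e = 0) ∨ ∃ x : ℂ, (a : ℂ) = x + (starRingEnd ℂ) x ∧
    (e : ℂ) = x * (starRingEnd ℂ) x ∧ x * (starRingEnd ℂ) x = (q : ℂ)

lemma HB.coeff {a e : ℤ} {q : ℕ} (h : HB a e q) (hq : 1 ≤ q) {c : ℕ → ℤ} (h0 : c 0 = 1)
    (h1 : c 1 = a) (h2 : ∀ k, c (k + 2) = a * c (k + 1) - e * c k) (n : ℕ) :
    |(c n : ℝ)| ≤ (n + 1) * (Real.sqrt q) ^ n := by
  rcases h with ⟨ha, rfl⟩ | h
  · have h3 : ∀ n, |c n| ≤ 1 := by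
      intro n
      induction n using Nat.twoStepInduction with
      | zero => rw [h0]; simp
      | one => rw [h1]; exact ha
      | more n ih1 ih2 =>
        rw [h2, zero_mul, sub_zero, abs_mul]
        exact mul_le_one₀ ha (abs_nonneg _) ih2
    have h4 : |(c n : ℝ)| ≤ 1 := by exact_mod_cast h3 n
    refine h4.trans ?_
    have h5 : (1 : ℝ) ≤ Real.sqrt q := Real.one_le_sqrt.2 (by exact_mod_cast hq)
    have h6 : (1 : ℝ) ≤ Real.sqrt q ^ n := one_le_pow₀ h5
    have h7 : (0 : ℝ) ≤ n := Nat.cast_nonneg n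
    nlinarith
  · exact coeff_bd (Or.inr h) h0 h1 h2 n

/-- the local factor is not zero -/
lemma HB.ne {a e : ℤ} {q : ℕ} (h : HB a e q) (hq : 1 < q) {z : ℂ} (hz : ‖z‖ * Real.sqrt q < 1) :
    1 - (a : ℂ) * z + (e : ℂ) * z ^ 2 ≠ 0 := by
  have h5 : (1 : ℝ) ≤ Real.sqrt q := Real.one_le_sqrt.2 (by exact_mod_cast hq.le)
  rcases h with ⟨ha, rfl⟩ | ⟨x, h1, h2, h3⟩
  · intro h0
    have h4 : (a : ℂ) * z = 1 := by
      rw [Int.cast_zero, zero_mul, add_zero] at h0
      linear_combination -h0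
    have h6 := congrArg norm h4
    rw [norm_mul, norm_one, Complex.norm_intCast] at h6
    have h7 : |(a : ℝ)| ≤ 1 := by exact_mod_cast ha
    have h8 : ‖z‖ < 1 := by nlinarith [norm_nonneg z]
    nlinarith [norm_nonneg z, abs_nonneg (a : ℝ)]
  · have hx : ‖x‖ = Real.sqrt q := by
      have h4 : ‖x‖ ^ 2 = q := by
        have := Complex.mul_conj x
        rw [h3] at this
        rw [← Complex.normSq_eq_norm_sq]
        exact_mod_cast this.symm
      rw [← h4, Real.sqrt_sq (norm_nonneg _)]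
    have h4 : 1 - (a : ℂ) * z + (e : ℂ) * z ^ 2 = (1 - x * z) * (1 - (starRingEnd ℂ) x * z) := by
      rw [h1, h2]; ring
    rw [h4]
    have h6 : ∀ y : ℂ, ‖y‖ = Real.sqrt q → 1 - y * z ≠ 0 := by
      intro y hy h0
      have h7 : y * z = 1 := by linear_combination -h0
      have h8 := congrArg norm h7
      rw [norm_mul, norm_one, hy, mul_comm] at h8
      linarith
    exact mul_ne_zero (h6 x hx) (h6 _ (by rw [RCLike.norm_conj, hx]))

lemma hb_of_sq {a : ℤ} {q : ℕ} (h : a ^ 2 ≤ 4 * q) : HB a q q := by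
  refine Or.inr ⟨⟨a / 2, Real.sqrt (4 * q - a ^ 2) / 2⟩, ?_, ?_, ?_⟩
  · apply Complex.ext
    · simp
    · simp
  all_goals
    have h1 : (0 : ℝ) ≤ 4 * q - a ^ 2 := by
      have : ((a ^ 2 : ℤ) : ℝ) ≤ ((4 * q : ℤ) : ℝ) := by exact_mod_cast h
      push_cast at this
      linarith
    rw [Complex.mul_conj, Complex.normSq_mk]
    have h2 := Real.mul_self_sqrt h1
    have h3 : ((a : ℝ) / 2) * (a / 2) + Real.sqrt (4 * q - a ^ 2) / 2 *
        (Real.sqrt (4 * q - a ^ 2) / 2) = q := by
      linear_combination (1 / 4 : ℝ) * h2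
    rw [h3]
    push_cast
    rfl

section ff

open Polynomial

/-- the number of points over a finite field of odd characteristic -/
theorem weil_odd {k : Type} [Field k] [Finite k] (h2 : (2 : k) ≠ 0) (V : WeierstrassCurve k) :
    ((Nat.card k : ℤ) - Nat.card (Pool.Agent.Y698.AP V)) ^ 2 ≤ 4 * Nat.card k := by
  classical
  have : Fintype k := Fintype.ofFinite k
  have hk : ringChar k ≠ 2 := by
    intro h
    apply h2
    have := ringChar.Nat.cast_ringChar (R := k)
    rw [h] at this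
    exact_mod_cast this
  have h4 : (4 : k) ≠ 0 := by
    have : (4 : k) = 2 * 2 := by norm_num
    rw [this]
    exact mul_ne_zero h2 h2
  set f : k[X] := C 4 * X ^ 3 + C V.b₂ * X ^ 2 + C (2 * V.b₄) * X + C V.b₆ with hf
  have hdeg : f.natDegree = 3 := natDegree_cubic h4
  have heval : ∀ x, f.eval x = 4 * x ^ 3 + V.b₂ * x ^ 2 + 2 * V.b₄ * x + V.b₆ := by
    intro x
    simp [hf]
  have e : Pool.Agent.Y698.AP V ≃ {x : k × k // x.2 ^ 2 = f.eval x.1} :=
    { toFun := fun Q => ⟨(Q.1.1, 2 * Q.1.2 + V.a₁ * Q.1.1 + V.a₃), by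
        have h : V.toAffine.Equation Q.1.1 Q.1.2 := Q.2
        rw [WeierstrassCurve.Affine.equation_iff] at h
        show (2 * Q.1.2 + V.a₁ * Q.1.1 + V.a₃) ^ 2 = f.eval Q.1.1
        rw [heval, WeierstrassCurve.b₂, WeierstrassCurve.b₄, WeierstrassCurve.b₆]
        linear_combination 4 * h⟩
      invFun := fun Q => ⟨(Q.1.1, (Q.1.2 - V.a₁ * Q.1.1 - V.a₃) / 2), by
        rw [WeierstrassCurve.Affine.equation_iff]
        have h := Q.2
        rw [heval, WeierstrassCurve.b₂, WeierstrassCurve.b₄, WeierstrassCurve.b₆] at h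
        show ((Q.1.2 - V.a₁ * Q.1.1 - V.a₃) / 2) ^ 2 + V.a₁ * Q.1.1 *
          ((Q.1.2 - V.a₁ * Q.1.1 - V.a₃) / 2) + V.a₃ * ((Q.1.2 - V.a₁ * Q.1.1 - V.a₃) / 2) =
            Q.1.1 ^ 3 + V.a₂ * Q.1.1 ^ 2 + V.a₄ * Q.1.1 + V.a₆
        field_simp
        linear_combination h⟩
      left_inv := fun Q => by
        apply Subtype.ext
        apply Prod.ext
        · rfl
        · show (2 * Q.1.2 + V.a₁ * Q.1.1 + V.a₃ - V.a₁ * Q.1.1 - V.a₃) / 2 = Q.1.2
          field_simp
          ring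
      right_inv := fun Q => by
        apply Subtype.ext
        apply Prod.ext
        · rfl
        · show 2 * ((Q.1.2 - V.a₁ * Q.1.1 - V.a₃) / 2) + V.a₁ * Q.1.1 + V.a₃ = Q.1.2
          field_simp
          ring }
  have h5 := Pool.Agent.H82R3.EK.card_points hk (fun x : k => f.eval x)
  rw [Nat.card_congr e, h5, Nat.card_eq_fintype_card]
  have h6 := Pool.Agent.H341R2.Sharp.weil_sharp hk f (by omega) (by
    intro a q hq
    have ha : a ≠ 0 := by
      rintro rfl
      rw [C_0, zero_mul] at hq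
      rw [hq] at hdeg
      simp at hdeg
    have hqd : 2 * q.natDegree = 3 := by
      rw [hq, natDegree_C_mul ha, natDegree_pow] at hdeg
      exact hdeg
    omega)
  rw [hdeg] at h6
  have h7 : (∑ x : k, (quadraticChar k (f.eval x) : ℝ)) =
      ((∑ x : k, quadraticChar k (f.eval x) : ℤ) : ℝ) := by push_cast; rfl
  rw [h7] at h6
  set S : ℤ := ∑ x : k, quadraticChar k (f.eval x) with hS
  have h8 : (S : ℝ) ^ 2 ≤ 4 * Fintype.card k := by
    have h9 : |(S : ℝ)| ^ 2 ≤ ((((3 : ℕ) : ℝ) - 1) * Real.sqrt (Fintype.card k)) ^ 2 :=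
      pow_le_pow_left₀ (abs_nonneg _) h6 2
    rw [sq_abs, mul_pow, Real.sq_sqrt (Nat.cast_nonneg _)] at h9
    refine h9.trans (le_of_eq ?_)
    norm_num
  have h9 : S ^ 2 ≤ 4 * (Fintype.card k : ℤ) := by exact_mod_cast h8
  have h10 : ((Fintype.card k : ℤ) - ((Fintype.card k : ℤ) + S)) ^ 2 = S ^ 2 := by ring
  rw [h10]
  exact h9

end ff

section Local

variable (R : Type) [CommRing R] [IsDomain R] [IsDiscreteValuationRing R] {L : Type}
  [Field L] [Algebra R L] [IsFractionRing R L]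

/-- **the bound of Hasse for a local factor** -/
theorem hb_loc [Finite (ResidueField R)]
    (h : (2 : ResidueField R) ≠ 0 ∨ Nat.card (ResidueField R) ≤ 4) (W : WeierstrassCurve L) :
    HB (aLoc R W) (eLoc R W) (Nat.card (ResidueField R)) := by
  by_cases hg : (W.minimal R).HasGoodReduction R
  · have he : eLoc R W = Nat.card (ResidueField R) := by
      unfold eLoc
      rw [if_pos hg]
    rw [he]
    apply hb_of_sq
    rcases h with h2 | hq
    · have h3 : aLoc R W = (Nat.card (ResidueField R) : ℤ) -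
          Nat.card (Pool.Agent.Y698.AP ((W.minimal R).reduction R)) := by
        have h4 : ((W.minimal R).reduction R).Δ ≠ 0 := by
          have h5 : IsUnit ((W.minimal R).integralModel R).Δ := by
            have h3 := hg.goodReduction
            rw [← WeierstrassCurve.integralModel_Δ_eq R (W.minimal R),
              IsDedekindDomain.HeightOneSpectrum.valuation_eq_one_iff_notMem] at h3
            by_contra h4
            exact h3 ((IsLocalRing.mem_maximalIdeal _).2 h4)
          unfold WeierstrassCurve.reduction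
          rw [WeierstrassCurve.map_Δ]
          exact (h5.map _).ne_zero
        unfold aLoc
        rw [if_pos hg, Pool.Agent.Y698.card_point _ h4]
        push_cast
        ring
      rw [h3]
      exact weil_odd h2 _
    · have h3 := aLoc_le R W
      have h4 : (aLoc R W) ^ 2 ≤ (Nat.card (ResidueField R) : ℤ) ^ 2 := sq_le_sq' (by
        linarith [neg_abs_le (aLoc R W)]) (by linarith [le_abs_self (aLoc R W)])
      have h5 : (Nat.card (ResidueField R) : ℤ) ≤ 4 := by exact_mod_cast hq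
      have h6 : (0 : ℤ) ≤ (Nat.card (ResidueField R) : ℤ) := by positivity
      nlinarith
  · refine Or.inl ⟨?_, ?_⟩
    · unfold aLoc
      rw [if_neg hg]
      split_ifs <;> simp
    · unfold eLoc
      rw [if_neg hg]

end Local

variable {K : Type} [Field K] [NumberField K] (E : WeierstrassCurve K)

/-- the bound of Hasse over a number field -/
theorem hb_place (v : HeightOneSpectrum (𝓞 K)) (h : (2 : 𝓞 K) ∉ v.asIdeal ∨ nm v ≤ 4) :
    HB (aV E v) (eV E v) (nm v) := by
  have := finite_res v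
  have h1 : (2 : ResidueField (v.adicCompletionIntegers K)) ≠ 0 ∨
      Nat.card (ResidueField (v.adicCompletionIntegers K)) ≤ 4 := by
    rcases h with h | h
    · left
      intro h0
      apply h
      have h3 := (redMap_eq_zero v (2 : 𝓞 K)).1 (by rw [map_ofNat]; exact h0)
      exact h3
    · right
      rwa [card_res]
  have h2 := hb_loc (v.adicCompletionIntegers K) h1 (E.baseChange (v.adicCompletion K))
  rw [card_res] at h2
  exact h2

theorem fdataB (hE : ∀ v : HeightOneSpectrum (𝓞 K), HB (aV E v) (eV E v) (nm v)) {σ : ℝ}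
    (hσ : 3 / 2 < σ) : FData (fun v : HeightOneSpectrum (𝓞 K) => nm v) (locPS E) σ where
  two_le := two_le_nm
  north := northcott_nm
  const := fun v => by
    rw [← PowerSeries.coeff_zero_eq_constantCoeff, locPS_eq]
    exact (inv_coeff (aV E v) (eV E v)).1
  sum := by
    have hg : Summable fun n : ℕ => ((n : ℝ) + 2) * (1 / 2 : ℝ) ^ n := by
      have g1 := summable_pow_mul_geometric_of_norm_lt_one (R := ℝ) 1 (r := 1 / 2)
        (by rw [Real.norm_eq_abs]; norm_num [abs_of_pos])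
      have g2 := summable_geometric_of_lt_one (r := (1 / 2 : ℝ)) (by norm_num) (by norm_num)
      refine (g1.add (g2.mul_left 2)).congr fun n => ?_
      ring
    have h1 := ((nm_summable (K := K) (x := σ - 1 / 2) (by linarith))).mul_of_nonneg hg
      (fun v => by positivity) (fun n => by positivity)
    refine Summable.of_nonneg_of_le (fun x => by positivity) (fun x => ?_) h1
    obtain ⟨v, n⟩ := x
    simp only
    have hq2 : (2 : ℝ) ≤ nm v := by exact_mod_cast two_le_nm v
    have hq0 : (0 : ℝ) < nm v := by linarith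
    obtain ⟨e0, e1, e2⟩ := inv_coeff (aV E v) (eV E v)
    rw [← locPS_eq] at e0 e1 e2
    have h3 := (hE v).coeff (by have := two_le_nm v; omega)
      (c := fun k => (locPS E v).coeff k) e0 e1 e2 (n + 1)
    have h4 : (nm v : ℝ) ^ (-(σ * (n + 1))) = ((nm v : ℝ) ^ (-σ)) ^ (n + 1) := by
      rw [← Real.rpow_natCast, ← Real.rpow_mul hq0.le]
      congr 1
      push_cast
      ring
    rw [h4]
    set y := (nm v : ℝ) ^ (-(σ - 1 / 2)) with hy
    have hy0 : 0 ≤ y := by positivity
    have h5 : Real.sqrt (nm v) * (nm v : ℝ) ^ (-σ) = y := by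
      rw [hy, Real.sqrt_eq_rpow, ← Real.rpow_add hq0]
      congr 1
      ring
    have hy1 : y ≤ 1 / 2 := by
      calc y ≤ (nm v : ℝ) ^ (-1 : ℝ) :=
            Real.rpow_le_rpow_of_exponent_le (by linarith) (by linarith)
        _ = (nm v : ℝ)⁻¹ := Real.rpow_neg_one _
        _ ≤ 2⁻¹ := inv_anti₀ (by norm_num) hq2
        _ = 1 / 2 := by norm_num
    calc |(((locPS E v).coeff (n + 1) : ℤ) : ℝ)| * ((nm v : ℝ) ^ (-σ)) ^ (n + 1) ≤
        (((n + 1 : ℕ) : ℝ) + 1) * Real.sqrt (nm v) ^ (n + 1) * ((nm v : ℝ) ^ (-σ)) ^ (n + 1) := by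
          gcongr
      _ = ((n : ℝ) + 2) * (Real.sqrt (nm v) * (nm v : ℝ) ^ (-σ)) ^ (n + 1) := by
          rw [mul_pow]; push_cast; ring
      _ = y * (((n : ℝ) + 2) * y ^ n) := by rw [h5, pow_succ]; ring
      _ ≤ y * (((n : ℝ) + 2) * (1 / 2) ^ n) := by gcongr

/-- **the Euler product of the `L`-series to the right of `3/2`** -/
theorem LSeries_hasProdB (hE : ∀ v : HeightOneSpectrum (𝓞 K), HB (aV E v) (eV E v) (nm v))
    {s : ℂ} (hs : 3 / 2 < s.re) :
    LSeriesSummable ((fun n : ℤ => (n : ℂ)) ∘ E.LFunction) s ∧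
    HasProd (fun v : HeightOneSpectrum (𝓞 K) =>
      (1 - (aV E v : ℂ) * (nm v : ℂ) ^ (-s) + (eV E v : ℂ) * ((nm v : ℂ) ^ (-s)) ^ 2)⁻¹)
      (E.LSeries s) := by
  have h1 := (fdataB E hE hs).main (s := s) le_rfl
  rw [← LFunction_eq] at h1
  have h2 : (toC E.LFunction) = (fun n : ℤ => (n : ℂ)) ∘ E.LFunction := rfl
  have h3 : (fun v : HeightOneSpectrum (𝓞 K) =>
      (1 - (aV E v : ℂ) * (nm v : ℂ) ^ (-s) + (eV E v : ℂ) * ((nm v : ℂ) ^ (-s)) ^ 2)⁻¹) =
      fun v => ∑' k : ℕ, ((locPS E v).coeff k : ℂ) * ((nm v : ℂ) ^ (-s)) ^ k := by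
    funext v
    obtain ⟨e0, e1, e2⟩ := inv_coeff (aV E v) (eV E v)
    rw [← locPS_eq] at e0 e1 e2
    refine (rec_sum (c := fun k => (locPS E v).coeff k) e0 e1 e2 ?_).symm
    have h4 := (fdataB E hE hs).single v (τ := s.re) le_rfl
    refine Summable.of_norm_bounded h4 fun k => ?_
    have hq0 : (0 : ℝ) ≤ nm v := by positivity
    rw [norm_mul, norm_pow, Complex.norm_intCast,
      Complex.norm_natCast_cpow_of_pos (by have := two_le_nm v; omega)]
    apply le_of_eq
    congr 1
    rw [Complex.neg_re, ← Real.rpow_natCast, ← Real.rpow_mul hq0]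
    congr 1
    ring
  rw [h3]
  exact ⟨by rw [← h2]; exact h1.1, h1.2⟩

end Pool.Agent.L7h15.BK
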