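import Pool.Agent.L7h15.BK.End1

/-!
Places that split completely: the completions are isomorphic (after Y852/GS/Base.lean, for a general base field).
-/

set_option autoImplicit false
set_option linter.all false

open NumberField IsDedekindDomain WithZero Filter Topology

namespace Pool.Agent.L7h15.BK

open Pool.Agent.TH115.GD
open Pool.Agent.K4H55.CX (plc mem_plc mem_plc_K emb_int plc_le plc_lt)

abbrev G0 : Type := WithZero (Multiplicative ℤ)

section emb

variable {K F : Type} [Field K] [NumberField K] [Field F] [NumberField F] [Algebra K F]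

/-- all the places above `v` come from embeddings -/
theorem exists_plc [IsGalois K F] {v : HeightOneSpectrum (𝓞 K)}
    (ψ : F →ₐ[K] v.adicCompletion K) {u : HeightOneSpectrum (𝓞 F)}
    (hu : u.asIdeal.comap (algebraMap (𝓞 K) (𝓞 F)) = v.asIdeal) :
    ∃ φ : F →ₐ[K] v.adicCompletion K, plc φ = u := by
  have : u.asIdeal.LiesOver v.asIdeal := ⟨hu.symm⟩
  have : (plc ψ).asIdeal.LiesOver v.asIdeal := ⟨(comap_plc ψ).symm⟩
  have := u.isPrime
  have := (plc ψ).isPrime
  obtain ⟨g, hg⟩ := Ideal.exists_smul_eq_of_isGaloisGroup v.asIdeal (plc ψ).asIdeal u.asIdeal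
    (F ≃ₐ[K] F)
  refine ⟨ψ.comp (g⁻¹ : F ≃ₐ[K] F).toAlgHom, ?_⟩
  apply HeightOneSpectrum.ext
  rw [← hg]
  ext x
  rw [Ideal.mem_pointwise_smul_iff_inv_smul_mem, mem_plc, mem_plc]
  rfl

lemma vK {v : HeightOneSpectrum (𝓞 K)} (x : K) :
    (Valued.v (algebraMap K (v.adicCompletion K) x) : G0) = v.valuation K x :=
  HeightOneSpectrum.valuedAdicCompletion_eq_valuation' v x

/-- the valuation of the place of an embedding -/
theorem val_plc {v : HeightOneSpectrum (𝓞 K)} (ψ : F →ₐ[K] v.adicCompletion K) (y : F) :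
    (plc ψ).valuation F y = Valued.v (ψ y) := by
  obtain ⟨π, hπ⟩ := v.valuation_exists_uniformizer K
  obtain ⟨ϖ, hϖ⟩ := (plc ψ).valuation_exists_uniformizer F
  have hπ' : (Valued.v (ψ (algebraMap K F π)) : G0) = exp (-1 : ℤ) := by
    rw [AlgHom.commutes, vK, hπ]
  have hlt : exp (-1 : ℤ) < (1 : G0) := by rw [← exp_zero, exp_lt_exp]; norm_num
  have hπ0 : algebraMap K F π ≠ 0 := by
    intro h
    rw [h, map_zero, map_zero] at hπ'
    exact exp_ne_zero hπ'.symm
  have hϖ0 : ϖ ≠ 0 := by
    rintro rfl
    rw [map_zero] at hϖ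
    exact exp_ne_zero hϖ.symm
  -- the place of the embedding is not ramified
  have he : (plc ψ).valuation F (algebraMap K F π) = exp (-1 : ℤ) := by
    have h0 : (plc ψ).valuation F (algebraMap K F π) ≠ 0 := (Valuation.ne_zero_iff _).2 hπ0
    apply le_antisymm
    · -- otherwise `ψ π` would be a unit
      by_contra hcon
      push Not at hcon
      have h1 : 1 ≤ (plc ψ).valuation F (algebraMap K F π) := by
        rw [← exp_log h0, exp_lt_exp] at hcon
        rw [← exp_log h0, ← exp_zero, exp_le_exp]
        omega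
      have h2 : (plc ψ).valuation F (algebraMap K F π)⁻¹ ≤ 1 := by
        rw [map_inv₀]
        exact inv_le_one_of_one_le₀ h1
      have h3 := plc_le ψ h2
      rw [map_inv₀, map_inv₀, hπ', ← exp_neg, ← exp_zero, exp_le_exp] at h3
      norm_num at h3
    · by_contra hcon
      push Not at hcon
      have h1 : (plc ψ).valuation F (algebraMap K F π / ϖ) < 1 := by
        rw [map_div₀, hϖ]
        exact (div_lt_one₀ (zero_lt_iff.2 exp_ne_zero)).2 hcon
      have h2 := plc_lt ψ h1
      have h3 : (plc ψ).valuation F ϖ < 1 := by rw [hϖ]; exact hlt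
      have h4 := plc_lt ψ h3
      have hϖ1 : (Valued.v (ψ ϖ) : G0) ≠ 0 := (Valuation.ne_zero_iff _).2
        ((map_ne_zero ψ).2 hϖ0)
      rw [map_div₀, map_div₀, hπ', div_lt_one₀ (zero_lt_iff.2 hϖ1)] at h2
      rw [← exp_log hϖ1, exp_lt_exp] at h2
      rw [← exp_log hϖ1, ← exp_zero, exp_lt_exp] at h4
      omega
  -- units
  have hunit : ∀ z : F, (plc ψ).valuation F z = 1 → (Valued.v (ψ z) : G0) = 1 := by
    intro z hz
    have hz0 : z ≠ 0 := by
      rintro rfl
      rw [map_zero] at hz
      exact zero_ne_one hz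
    refine le_antisymm (plc_le ψ hz.le) ?_
    have h1 : (plc ψ).valuation F z⁻¹ ≤ 1 := by rw [map_inv₀, hz, _root_.inv_one]
    have h2 := plc_le ψ h1
    rw [map_inv₀, map_inv₀] at h2
    have h3 : (Valued.v (ψ z) : G0) ≠ 0 := (Valuation.ne_zero_iff _).2 ((map_ne_zero ψ).2 hz0)
    exact (inv_le_one₀ (zero_lt_iff.2 h3)).1 h2
  rcases eq_or_ne y 0 with rfl | hy
  · rw [map_zero, map_zero, map_zero]
  have hyv : (plc ψ).valuation F y ≠ 0 := (Valuation.ne_zero_iff _).2 hy
  set m := log ((plc ψ).valuation F y) with hm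
  have hym : (plc ψ).valuation F y = exp m := (exp_log hyv).symm
  have h1 : (plc ψ).valuation F (y * (algebraMap K F π) ^ m) = 1 := by
    rw [map_mul, map_zpow₀, he, hym, ← exp_zsmul, ← exp_add, ← exp_zero]
    congr 1
    simp
  have h2 := hunit _ h1
  rw [map_mul, map_mul, map_zpow₀, map_zpow₀, hπ', ← exp_zsmul] at h2
  have h3 : (Valued.v (ψ y) : G0) ≠ 0 := (Valuation.ne_zero_iff _).2 ((map_ne_zero ψ).2 hy)
  rw [← exp_log h3, ← exp_add, ← exp_zero, exp_inj] at h2
  rw [hym, ← exp_log h3]
  congr 1
  simp at h2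
  omega

end emb

section base

theorem vv {F : Type} [Field F] [NumberField F] (w : HeightOneSpectrum (𝓞 F)) (x : F) :
    (Valued.v (algebraMap F (w.adicCompletion F) x) : G0) = w.valuation F x :=
  HeightOneSpectrum.valuedAdicCompletion_eq_valuation' w x

theorem near {F : Type} [Field F] [NumberField F] (w : HeightOneSpectrum (𝓞 F))
    (y : w.adicCompletion F) (n : ℕ) :
    ∃ x : F, (Valued.v (y - algebraMap F (w.adicCompletion F) x) : G0) ≤ exp (-(n : ℤ)) := by
  obtain ⟨π, hπ⟩ := w.valuation_exists_uniformizer F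
  set c : w.adicCompletion F := algebraMap F (w.adicCompletion F) (π ^ n) with hc
  have hcv : (Valued.v c : G0) = exp (-(n : ℤ)) := by
    rw [hc, vv, map_pow, hπ, ← exp_nsmul]
    congr 1
    simp
  have hne : (Valued.v (R := w.adicCompletion F)).restrict c ≠ 0 := by
    rw [Valuation.ne_zero_iff]
    intro h0
    rw [h0, map_zero] at hcv
    exact exp_ne_zero hcv.symm
  have hU : {z : w.adicCompletion F | (Valued.v z : G0) < Valued.v c} ∈
      nhds (0 : w.adicCompletion F) := by
    rw [Valued.mem_nhds_zero]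
    refine ⟨Units.mk0 _ hne, fun z hz => ?_⟩
    exact (Valuation.restrict_lt_iff _).1 hz
  have ht : Filter.Tendsto (fun z : w.adicCompletion F => y - z) (nhds y) (nhds 0) := by
    have h5 : Filter.Tendsto (fun z : w.adicCompletion F => y - z) (nhds y) (nhds (y - y)) :=
      tendsto_const_nhds.sub Filter.tendsto_id
    rwa [sub_self] at h5
  obtain ⟨z, hz, x, rfl⟩ := mem_closure_iff_nhds.1
    (HeightOneSpectrum.denseRange_algebraMap F w y) _ (ht hU)
  refine ⟨x, ?_⟩
  rw [← hcv]
  exact le_of_lt hz

theorem small_zero {x : G0} (h : ∀ n : ℕ, x ≤ exp (-(n : ℤ))) : x = 0 := by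
  by_contra h0
  have h1 := h ((-log x).toNat + 1)
  have h2 : exp (log x) = x := exp_log h0
  generalize log x = m at h1 h2
  rw [← h2, exp_le_exp] at h1
  omega

variable {K F : Type} [Field K] [NumberField K] [Field F] [NumberField F] [Algebra K F]
  {v : HeightOneSpectrum (𝓞 K)} {u : HeightOneSpectrum (𝓞 F)}

/-- `u` is a place over `v` of ramification index and residue degree one. -/
structure Deg1 (v : HeightOneSpectrum (𝓞 K)) (u : HeightOneSpectrum (𝓞 F)) : Prop where
  val : ∀ x : K, u.valuation F (algebraMap K F x) = v.valuation K x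
  dense : ∀ (x : F) (n : ℕ), ∃ q : K, u.valuation F (x - algebraMap K F q) ≤ exp (-(n : ℤ))

theorem deg1_plc (ψ : F →ₐ[K] v.adicCompletion K) : Deg1 v (plc ψ) where
  val := fun x => by rw [val_plc, AlgHom.commutes, vK]
  dense := fun x n => by
    obtain ⟨q, hq⟩ := near v (ψ x) n
    refine ⟨q, ?_⟩
    rw [val_plc, map_sub, AlgHom.commutes]
    exact hq

theorem deg1_split [IsGalois K F] (ψ : F →ₐ[K] v.adicCompletion K)
    (hu : u.asIdeal.comap (algebraMap (𝓞 K) (𝓞 F)) = v.asIdeal) : Deg1 v u := by
  obtain ⟨φ, rfl⟩ := exists_plc ψ hu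
  exact deg1_plc φ

/-! ### The isomorphism of the completions -/

theorem exists_iso (h : Deg1 v u) :
    ∃ e : v.adicCompletion K ≃+* u.adicCompletion F,
      (∀ x : K, e (algebraMap K _ x) = algebraMap F _ (algebraMap K F x)) ∧
      ∀ y, (Valued.v (e y) : G0) = Valued.v y := by
  have hval := h.val
  obtain ⟨j, hj1, hj2, hj3⟩ := exists_compl_map v u (algebraMap K F)
    (fun x hx => by rw [hval]; exact hx) (fun x hx => by rw [hval]; exact hx)
  have hjv : ∀ y, (Valued.v (j y) : G0) = Valued.v y := by
    intro y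
    rcases eq_or_ne y 0 with rfl | hy
    · rw [map_zero, map_zero, map_zero]
    have hyv : (Valued.v y : G0) ≠ 0 := (Valuation.ne_zero_iff _).2 hy
    -- `y = x (1 + ε)`
    obtain ⟨x, hx⟩ := near v y ((-log (Valued.v y : G0)).toNat + 1)
    have hx' : (Valued.v (y - algebraMap K (v.adicCompletion K) x) : G0) < Valued.v y := by
      refine lt_of_le_of_lt hx ?_
      conv_rhs => rw [← exp_log hyv]
      rw [exp_lt_exp]
      omega
    have h1 : (Valued.v (algebraMap K (v.adicCompletion K) x) : G0) = Valued.v y := by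
      have e1 : algebraMap K (v.adicCompletion K) x =
        y - (y - algebraMap K (v.adicCompletion K) x) := by ring
      rw [e1, Valuation.map_sub_eq_of_lt_left _ hx']
    have hx0 : algebraMap K (v.adicCompletion K) x ≠ 0 := by
      intro h0
      rw [h0, map_zero] at h1
      exact hyv h1.symm
    set ε : v.adicCompletion K := (y - algebraMap K (v.adicCompletion K) x) /
      algebraMap K (v.adicCompletion K) x with hε
    have hε1 : (Valued.v ε : G0) < 1 := by
      rw [hε, map_div₀, h1]
      exact (div_lt_one₀ (zero_lt_iff.2 hyv)).2 hx'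
    have hy2 : y = algebraMap K (v.adicCompletion K) x * (1 + ε) := by
      rw [hε]; field_simp; ring
    have h3 := hj3 ε hε1
    have h4 : (Valued.v (1 + j ε) : G0) = 1 := by
      rw [Valuation.map_add_eq_of_lt_left _ (by rw [map_one]; exact h3), map_one]
    have h5 : (Valued.v (j y) : G0) = u.valuation F (algebraMap K F x) := by
      rw [hy2, map_mul, map_add, map_one, map_mul, h4, mul_one, hj1, vv]
    rw [h5, hval, ← vv, h1]
  have hsurj : Function.Surjective j := by
    intro y
    have hq : ∀ n : ℕ, ∃ q : K, (Valued.v (y - j (algebraMap K _ q)) : G0) ≤ exp (-(n : ℤ)) := by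
      intro n
      obtain ⟨x, hx⟩ := near u y n
      obtain ⟨q, hq⟩ := h.dense x n
      refine ⟨q, ?_⟩
      have e : y - j (algebraMap K _ q) = (y - algebraMap F _ x) +
          algebraMap F (u.adicCompletion F) (x - algebraMap K F q) := by
        rw [hj1, map_sub]; ring
      rw [e]
      refine (Valuation.map_add _ _ _).trans (max_le hx ?_)
      rw [vv]
      exact hq
    choose q hq using hq
    let z : ℕ → v.adicCompletion K := fun n => algebraMap K _ (q n)
    have hz : ∀ n, (Valued.v (z (n + 1) - z n) : G0) ≤ exp (-(n : ℤ)) := by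
      intro n
      rw [← hjv]
      have e : j (z (n + 1) - z n) = (y - j (z n)) - (y - j (z (n + 1))) := by
        rw [map_sub]; ring
      rw [e]
      refine (Valuation.map_sub _ _ _).trans (max_le (hq n) ((hq (n + 1)).trans ?_))
      rw [exp_le_exp]
      omega
    haveI := nonarch (L := v.adicCompletion K)
    have tend : ∀ (f : ℕ → v.adicCompletion K), (∀ n, (Valued.v (f n) : G0) ≤ exp (-(n : ℤ))) →
        Tendsto f atTop (𝓝 0) := by
      intro f hf
      rw [Filter.tendsto_def]
      intro U hU
      obtain ⟨γ, hγ⟩ := Valued.mem_nhds_zero.1 hU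
      have hg : MonoidWithZeroHom.ValueGroup₀.embedding γ.1 ≠ 0 := by
        rw [Ne, map_eq_zero]
        exact γ.ne_zero
      obtain ⟨N, hN, -⟩ := exists_exp_neg_natCast_lt_and_lt hg hg
      filter_upwards [eventually_ge_atTop N] with n hn
      refine hγ ?_
      show (Valued.v (R := v.adicCompletion K)).restrict (f n) < γ
      rw [Valuation.restrict_lt_iff_lt_embedding]
      refine lt_of_le_of_lt ((hf n).trans ?_) hN
      rw [exp_le_exp]
      omega
    have hc : CauchySeq z := by
      have := tend _ hz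
      exact NonarchimedeanAddGroup.cauchySeq_of_tendsto_sub_nhds_zero this
    obtain ⟨l, hl⟩ := cauchySeq_tendsto_of_complete hc
    refine ⟨l, ?_⟩
    have key : ∀ n : ℕ, (Valued.v (y - j l) : G0) ≤ exp (-(n : ℤ)) := by
      intro n
      have hU : {x : v.adicCompletion K | (Valued.v x : G0) ≤ exp (-(n : ℤ))} ∈
          nhds (0 : v.adicCompletion K) := by
        obtain ⟨π, hπ⟩ := v.valuation_exists_uniformizer K
        set c : v.adicCompletion K := algebraMap K (v.adicCompletion K) (π ^ n) with hc
        have hcv : (Valued.v c : G0) = exp (-(n : ℤ)) := by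
          rw [hc, vv, map_pow, hπ, ← exp_nsmul]
          congr 1
          simp
        have hne : (Valued.v (R := v.adicCompletion K)).restrict c ≠ 0 := by
          rw [Valuation.ne_zero_iff]
          intro h0
          rw [h0, map_zero] at hcv
          exact exp_ne_zero hcv.symm
        rw [Valued.mem_nhds_zero]
        refine ⟨Units.mk0 _ hne, fun z hz => ?_⟩
        show (Valued.v z : G0) ≤ exp (-(n : ℤ))
        rw [← hcv]
        exact le_of_lt ((Valuation.restrict_lt_iff _).1 hz)
      have ht : Filter.Tendsto (fun k => z k - l) atTop (nhds 0) := by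
        have h5 := hl.sub_const l
        rwa [sub_self] at h5
      obtain ⟨k, hk, hkn⟩ := ((ht.eventually hU).and (eventually_ge_atTop n)).exists
      have e : y - j l = (y - j (z k)) + j (z k - l) := by rw [map_sub]; ring
      rw [e]
      refine (Valuation.map_add _ _ _).trans (max_le ((hq k).trans ?_) ?_)
      · rw [exp_le_exp]; omega
      · rw [hjv]; exact hk
    have h0 := small_zero key
    rw [Valuation.zero_iff, sub_eq_zero] at h0
    exact h0.symm
  refine ⟨RingEquiv.ofBijective j ⟨j.injective, hsurj⟩, hj1, hjv⟩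

end base

end Pool.Agent.L7h15.BK
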